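import Mathlib

namespace Pool.Agent.H.MP_d94aa4_gt

open Submodule

variable {F : Type} [Field F] {V V' : Type} [AddCommGroup V] [Module F V] [AddCommGroup V']
  [Module F V']

/-- relative dimension -/
noncomputable def rd (B Z : Submodule F V) : Cardinal := Module.rank F (Z.map B.mkQ)

theorem rd_zero {B Z : Submodule F V} : rd B Z = 0 ↔ Z ≤ B := by
  rw [rd, Submodule.rank_eq_zero, ← LinearMap.le_ker_iff_map, ker_mkQ]

theorem rd_iso {B Z : Submodule F V} {B' Z' : Submodule F V'} (f : V →ₗ[F] V')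
    (h1 : ∀ z ∈ Z, f z ∈ Z' ⊔ B') (h2 : ∀ y ∈ Z', ∃ z ∈ Z, y - f z ∈ B')
    (h3 : ∀ z ∈ Z, f z ∈ B' ↔ z ∈ B) : rd B Z = rd B' Z' := by
  have e1 : Z.map B.mkQ = LinearMap.range (B.mkQ ∘ₗ Z.subtype) := by
    rw [LinearMap.range_comp, range_subtype]
  have e2 : Z'.map B'.mkQ = LinearMap.range (B'.mkQ ∘ₗ f ∘ₗ Z.subtype) := by
    refine le_antisymm ?_ ?_
    · rintro _ ⟨y, hy, rfl⟩
      obtain ⟨z, hz, e⟩ := h2 y hy
      exact ⟨⟨z, hz⟩, ((Submodule.Quotient.eq _).2 e).symm⟩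
    · rintro _ ⟨⟨z, hz⟩, rfl⟩
      obtain ⟨y, hy, b, hb, e⟩ := mem_sup.1 (h1 z hz)
      refine ⟨y, hy, ((Submodule.Quotient.eq _).2 ?_).symm⟩
      show f z - y ∈ B'
      rw [← e, add_sub_cancel_left]; exact hb
  have e3 : LinearMap.ker (B.mkQ ∘ₗ Z.subtype) = LinearMap.ker (B'.mkQ ∘ₗ f ∘ₗ Z.subtype) := by
    ext ⟨z, hz⟩
    simp [h3 z hz]
  rw [rd, rd, e1, e2, ← (LinearMap.quotKerEquivRange _).rank_eq,
    ← (LinearMap.quotKerEquivRange _).rank_eq, e3]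

theorem rd_tower {A B : Submodule F V} (h : A ≤ B) (C : Submodule F V) :
    rd A C = rd A (C ⊓ B) + rd B C := by
  have k := LinearMap.rank_range_add_rank_ker
    ((A.liftQ B.mkQ (by rwa [ker_mkQ])).domRestrict (C.map A.mkQ))
  rw [LinearMap.range_domRestrict, ← map_comp, liftQ_mkQ, LinearMap.ker_domRestrict,
    ker_liftQ, ker_mkQ] at k
  rw [rd, ← k, add_comm]
  congr 1
  have : (C ⊓ B).map A.mkQ = C.map A.mkQ ⊓ B.map A.mkQ := by
    refine le_antisymm (map_inf_le _) ?_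
    rintro _ ⟨⟨c, hc, rfl⟩, b, hb, e⟩
    have : b - c ∈ A := (Submodule.Quotient.eq _).1 e
    exact ⟨c, ⟨hc, by simpa using B.sub_mem hb (h this)⟩, rfl⟩
  rw [rd, this, ← (comapSubtypeEquivOfLe (inf_le_left : C.map A.mkQ ⊓ B.map A.mkQ ≤ _)).rank_eq,
    comap_inf, comap_subtype_self, top_inf_eq]

theorem rd_prod (B Z : Submodule F V) (B' Z' : Submodule F V') :
    rd (B.prod B') (Z.prod Z') = rd B Z + rd B' Z' := by
  rw [rd_tower (B := B.prod ⊤) (prod_mono le_rfl le_top), add_comm]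
  congr 1
  · exact rd_iso (LinearMap.fst F V V') (fun z hz => mem_sup_left hz.1)
      (fun y hy => ⟨(y, 0), ⟨hy, Z'.zero_mem⟩, by simp⟩) fun z _ => by simp
  · exact rd_iso (LinearMap.snd F V V') (fun z hz => mem_sup_left hz.1.2)
      (fun y hy => ⟨(0, y), ⟨⟨Z.zero_mem, hy⟩, B.zero_mem, trivial⟩, by simp⟩)
      fun z hz => ⟨fun h => ⟨hz.2.1, h⟩, fun h => h.2⟩

/-- a differential with a family of negligible subspaces -/
structure Cx (F V : Type) [Field F] [AddCommGroup V] [Module F V] where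
  d : V →ₗ[F] V
  N : ℕ → Submodule F V
  dd : ∀ x, d (d x) = 0
  d0 : ∀ x, d x ∈ N 0
  dN : ∀ q, ∀ x ∈ N q, d x ∈ N (q + 1)

namespace Cx

/-- cocycles -/
def Z (K : Cx F V) (M : Submodule F V) (q : ℕ) : Submodule F V := M ⊓ (K.N (q + 1)).comap K.d

/-- coboundaries -/
def B (K : Cx F V) (M : Submodule F V) (q : ℕ) : Submodule F V := M.map K.d ⊔ K.N q

/-- Betti numbers -/
noncomputable def h (K : Cx F V) (M : Submodule F V) (q : ℕ) : Cardinal := rd (K.B M q) (K.Z M q)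

theorem mem_B {K : Cx F V} {M : Submodule F V} {q : ℕ} {x : V} :
    x ∈ K.B M q ↔ ∃ y ∈ M, x - K.d y ∈ K.N q := by
  constructor
  · intro h
    obtain ⟨_, ⟨y, hy, rfl⟩, n, hn, rfl⟩ := mem_sup.1 h
    exact ⟨y, hy, by simpa using hn⟩
  · rintro ⟨y, hy, h⟩
    exact mem_sup.2 ⟨_, ⟨y, hy, rfl⟩, _, h, by simp⟩

theorem mem_Z {K : Cx F V} {M : Submodule F V} {q : ℕ} {x : V} :
    x ∈ K.Z M q ↔ x ∈ M ∧ K.d x ∈ K.N (q + 1) := Iff.rfl

theorem dN' (K : Cx F V) {x : V} (h : ∀ q, x ∈ K.N q) (q : ℕ) : K.d x ∈ K.N q := by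
  cases q with
  | zero => exact K.d0 x
  | succ q => exact K.dN q x (h q)

/-- product complex -/
def prod (K : Cx F V) (K' : Cx F V') : Cx F (V × V') where
  d := K.d.prodMap K'.d
  N q := (K.N q).prod (K'.N q)
  dd x := Prod.ext (K.dd _) (K'.dd _)
  d0 x := ⟨K.d0 _, K'.d0 _⟩
  dN q x hx := ⟨K.dN q _ hx.1, K'.dN q _ hx.2⟩

theorem h_prod (K : Cx F V) (K' : Cx F V') (M : Submodule F V) (M' : Submodule F V') (q : ℕ) :
    (K.prod K').h (M.prod M') q = K.h M q + K'.h M' q := by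
  rw [h, h, h, ← rd_prod]
  congr 1
  · ext x
    rw [mem_prod, mem_B, mem_B, mem_B]
    exact ⟨fun ⟨y, h1, h2⟩ => ⟨⟨y.1, h1.1, h2.1⟩, y.2, h1.2, h2.2⟩,
      fun ⟨⟨y, h1, h2⟩, z, h3, h4⟩ => ⟨(y, z), ⟨h1, h3⟩, h2, h4⟩⟩
  · ext x
    exact ⟨fun h => ⟨⟨h.1.1, h.2.1⟩, h.1.2, h.2.2⟩, fun h => ⟨⟨h.1.1, h.2.1⟩, h.1.2, h.2.2⟩⟩

theorem les (K : Cx F V) (K' : Cx F V') {A B : Submodule F V} {C : Submodule F V'}
    (p : V →ₗ[F] V') (hB : ∀ x ∈ B, K.d x ∈ B) (AB : A ≤ B)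
    (pd : ∀ x, p (K.d x) = K'.d (p x)) (pN : ∀ q, ∀ x ∈ K.N q, p x ∈ K'.N q)
    (pB : ∀ x ∈ B, p x ∈ C) (sur : ∀ y ∈ C, ∃ x ∈ B, ∀ q, y - p x ∈ K'.N q)
    (pA : ∀ q, ∀ x ∈ A, p x ∈ K'.N q)
    (ex : ∀ q, ∀ x ∈ B, p x ∈ K'.N q → ∃ a ∈ A, x - a ∈ K.N q) :
    ∃ α β γ : ℕ → Cardinal, K.h A 0 = α 0 ∧ (∀ q, K.h A (q + 1) = γ q + α (q + 1)) ∧
      (∀ q, K.h B q = α q + β q) ∧ ∀ q, K'.h C q = β q + γ q := by
  have BB : ∀ q, K.B A q ≤ K.B B q := fun q => sup_le_sup_right (map_mono AB) _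
  have nB : ∀ {q x}, x ∈ K'.N q → x ∈ K'.B C q := mem_sup_right
  have pBd : ∀ q, ∀ x ∈ K.B B q, p x ∈ K'.B C q := fun q x hx => by
    obtain ⟨y, hy, h⟩ := mem_B.1 hx
    exact mem_B.2 ⟨p y, pB y hy, by simpa [← pd] using pN q _ h⟩
  have key : ∀ q, ∀ x ∈ B, p x ∈ K'.B C q → ∃ y ∈ B, ∃ a ∈ A, x - K.d y - a ∈ K.N q :=
    fun q x hx h => by
    obtain ⟨y, hy, h⟩ := mem_B.1 h
    obtain ⟨z, hz, h'⟩ := sur y hy
    refine ⟨z, hz, ex q _ (B.sub_mem hx (hB z hz)) ?_⟩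
    have := (K'.N q).add_mem h (K'.dN' h' q)
    simpa [pd] using this
  refine ⟨fun q => rd (K.B B q) (K.Z A q), fun q => rd (K.B B q ⊔ K.Z A q) (K.Z B q),
    fun q => rd (K'.B C q ⊔ (K.Z B q).map p) (K'.Z C q), ?_, fun q => ?_, fun q => ?_, fun q => ?_⟩
  · rw [h, rd_tower (BB 0), rd_zero.2, zero_add]
    rintro x ⟨-, hx⟩
    obtain ⟨y, -, h⟩ := mem_B.1 hx
    exact mem_sup_right (by simpa using (K.N 0).add_mem h (K.d0 y))
  · rw [h, rd_tower (BB _)]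
    congr 1
    trans rd (K.Z B q ⊔ A) (B ⊓ (K'.N (q + 1)).comap (p ∘ₗ K.d))
    · refine (rd_iso K.d (fun x hx => ?_) (fun a ha => ?_) fun x hx => ?_).symm
      · obtain ⟨a, ha, h⟩ := ex _ _ (hB x hx.1) hx.2
        refine mem_sup.2 ⟨a, ⟨⟨ha, ?_⟩, mem_B.2 ⟨x, hx.1, ?_⟩⟩, _, mem_sup_right h, by simp⟩
        · simpa [K.dd] using K.dN _ _ h
        · simpa using (K.N _).neg_mem h
      · obtain ⟨x, hx, h⟩ := mem_B.1 ha.2
        refine ⟨x, ⟨hx, ?_⟩, mem_sup_right h⟩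
        simpa using (K'.N _).sub_mem (pA _ a ha.1.1) (pN _ _ h)
      · constructor
        · intro h
          obtain ⟨a, ha, h⟩ := mem_B.1 h
          exact mem_sup.2 ⟨x - a, ⟨B.sub_mem hx.1 (AB ha), by simpa using h⟩, a, ha, by simp⟩
        · intro h
          obtain ⟨z, hz, a, ha, rfl⟩ := mem_sup.1 h
          exact mem_B.2 ⟨a, ha, by simpa using hz.2⟩
    · refine rd_iso p (fun x hx => mem_sup_left ⟨pB x hx.1, ?_⟩) (fun y hy => ?_) fun x hx => ?_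
      · simpa [pd] using hx.2
      · obtain ⟨x, hx, h⟩ := sur y hy.1
        refine ⟨x, ⟨hx, ?_⟩, mem_sup_left (nB (h q))⟩
        simpa [pd] using (K'.N _).sub_mem hy.2 (K'.dN' h _)
      · constructor
        · intro h
          obtain ⟨b, hb, _, ⟨z, hz, rfl⟩, e⟩ := mem_sup.1 h
          obtain ⟨y, hy, a, ha, k⟩ := key q (x - z) (B.sub_mem hx.1 hz.1) (by simpa [← e] using hb)
          refine mem_sup.2 ⟨x - a, ⟨B.sub_mem hx.1 (AB ha), ?_⟩, a, ha, by simp⟩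
          have := (K.N _).add_mem (K.dN _ _ k) hz.2
          simp only [map_sub, K.dd, sub_zero] at this
          show K.d (x - a) ∈ K.N (q + 1)
          convert this using 1
          rw [map_sub]; abel
        · intro h
          obtain ⟨z, hz, a, ha, rfl⟩ := mem_sup.1 h
          rw [map_add]
          exact add_mem (mem_sup_right ⟨z, hz, rfl⟩) (mem_sup_left (nB (pA _ a ha)))
  · rw [h, rd_tower (B := K.B B q ⊔ K.Z A q) le_sup_left]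
    congr 1
    symm
    refine rd_iso LinearMap.id (fun z hz => mem_sup_left ⟨⟨AB hz.1, hz.2⟩, mem_sup_right hz⟩)
      (fun y hy => ?_) fun _ _ => Iff.rfl
    obtain ⟨b, hb, z, hz, rfl⟩ := mem_sup.1 hy.2
    exact ⟨z, hz, by simpa using hb⟩
  · rw [h, rd_tower (B := K'.B C q ⊔ (K.Z B q).map p) le_sup_left]
    congr 1
    symm
    refine rd_iso p (fun z hz => mem_sup_left ⟨⟨pB z hz.1, ?_⟩, mem_sup_right ⟨z, hz, rfl⟩⟩)
      (fun y hy => ?_) fun z hz => ⟨fun h => ?_, fun h => ?_⟩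
    · simpa [pd] using pN _ _ hz.2
    · obtain ⟨b, hb, _, ⟨z, hz, rfl⟩, rfl⟩ := mem_sup.1 hy.2
      exact ⟨z, hz, by simpa using hb⟩
    · obtain ⟨y, hy, a, ha, k⟩ := key q z hz.1 h
      refine mem_sup.2 ⟨z - a, mem_B.2 ⟨y, hy, by rwa [sub_right_comm]⟩, a, ⟨ha, ?_⟩, by simp⟩
      simpa [K.dd] using (K.N _).sub_mem hz.2 (K.dN _ _ k)
    · obtain ⟨b, hb, a, ha, rfl⟩ := mem_sup.1 h
      rw [map_add]
      exact add_mem (pBd q b hb) (nB (pA _ a ha.1))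

end Cx

theorem euler {a b c α β γ : ℕ → ℕ} (h0 : a 0 = α 0) (h1 : ∀ q, a (q + 1) = γ q + α (q + 1))
    (h2 : ∀ q, b q = α q + β q) (h3 : ∀ q, c q = β q + γ q) {M : ℕ} (hM : a (M + 1) = 0) :
    ∑ q ∈ Finset.range (M + 1), (-1 : ℤ) ^ q * b q = ∑ q ∈ Finset.range (M + 1), (-1 : ℤ) ^ q * a q +
      ∑ q ∈ Finset.range (M + 1), (-1 : ℤ) ^ q * c q := by
  have : ∀ n, ∑ q ∈ Finset.range (n + 1), (-1 : ℤ) ^ q * a q +
      ∑ q ∈ Finset.range (n + 1), (-1 : ℤ) ^ q * c q =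
      ∑ q ∈ Finset.range (n + 1), (-1 : ℤ) ^ q * b q + (-1) ^ n * γ n := fun n => by
    induction n with
    | zero => simp [h0, h2, h3]; ring
    | succ n ih =>
      rw [Finset.sum_range_succ _ (n + 1), Finset.sum_range_succ _ (n + 1),
        Finset.sum_range_succ _ (n + 1), h1, h2, h3]
      push_cast
      linear_combination ih
  have g : γ M = 0 := by have := h1 M; omega
  rw [this, g]; simp

end Pool.Agent.H.MP_d94aa4_gt
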