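import Mathlib
import Pool.Agent.H.MP_d94aa4_gt.A
import Pool.Agent.Lib.helper7.AS

namespace Pool.Agent.H.MP_d94aa4_gt

open Set Pool.Agent.Lib.helper7.AS Metric

variable (F : Type) [Field F] {X : Type} [PseudoMetricSpace X]

/-- the Alexander-Spanier complex of a subset -/
def cx (A : Set X) : Cx F (List X → F) where
  d := { toFun := dd
         map_add' := fun a b => funext fun l => d_add l a b
         map_smul' := fun c a => funext fun l => d_mul l c a }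
  N q := { carrier := {a | Z q A a 0}
           add_mem' := fun ha hb => ha.two hb fun l e1 e2 => by simp_all
           zero_mem' := ⟨1, one_pos, fun _ _ => rfl⟩
           smul_mem' := fun c a ha => ha.one fun l e => by simp_all }
  dd a := funext fun l => d_d l a
  d0 a := ⟨1, one_pos, fun l hl => by rw [List.length_eq_zero_iff.1 hl.1]; rfl⟩
  dN q a ha := (Z.d ha).one fun l e => e.trans (d_zero _ _ fun _ _ _ => rfl)

variable {F}

theorem memN {A : Set X} {q : ℕ} {a : List X → F} : a ∈ (cx F A).N q ↔ Z q A a 0 := Iff.rfl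

theorem memZ {A : Set X} {M : Submodule F (List X → F)} {q : ℕ} {a : List X → F} :
    a ∈ (cx F A).Z M q ↔ a ∈ M ∧ Z (q + 1) A (dd a) 0 := Iff.rfl

theorem memB {A : Set X} {M : Submodule F (List X → F)} {q : ℕ} {a : List X → F} :
    a ∈ (cx F A).B M q ↔ ∃ t ∈ M, Z q A a (dd t) :=
  Cx.mem_B.trans (exists_congr fun t => and_congr_right fun _ =>
    ⟨fun h => Z.one h fun _ e => sub_eq_zero.1 e, fun h => h.one fun _ e => sub_eq_zero.2 e⟩)

theorem Z_of {k : ℕ} {A : Set X} {a b : List X → F} (h : ∀ l, (∀ x ∈ l, x ∈ A) → a l = b l) :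
    Z k A a b := ⟨1, one_pos, fun l hl => h l hl.2.1⟩

theorem Zmono {A B : Set X} (h : A ⊆ B) (M : Submodule F (List X → F)) (q : ℕ) :
    (cx F B).Z M q ≤ (cx F A).Z M q := fun _ ha => ⟨ha.1, Z.mono ha.2 h⟩

theorem Bmono {A B : Set X} (h : A ⊆ B) (M : Submodule F (List X → F)) (q : ℕ) :
    (cx F B).B M q ≤ (cx F A).B M q := fun _ ha =>
  let ⟨t, ht, e⟩ := memB.1 ha
  memB.2 ⟨t, ht, e.mono h⟩

theorem map_self {A : Set X} {f : X → X} (h : ∀ x ∈ A, f x = x) {l : List X}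
    (hl : ∀ x ∈ l, x ∈ A) : l.map f = l := by
  conv_rhs => rw [← List.map_id l]
  exact List.map_congr_left fun x hx => h x (hl x hx)

theorem nullh {A B : Set X} (hA : IsCompact A) (H : ℝ × X → X)
    (hH : ContinuousOn H (Icc 0 1 ×ˢ A)) (hm : MapsTo H (Icc 0 1 ×ˢ A) B) {p : X} (hp : p ∈ B)
    (h0 : ∀ x ∈ A, H (0, x) = p) (h1 : ∀ x ∈ A, H (1, x) = x) (q : ℕ) :
    (cx F B).Z ⊤ q ≤ (cx F A).B ⊤ q := fun a ha => by
  obtain ⟨t, ht⟩ := homot hA H hH hm a ha.2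
  obtain ⟨u, hu⟩ := P_zero (P_pt 0 q p) a (Z.mono ha.2 (singleton_subset_iff.2 hp))
  have := hu.map (f := fun _ : X => p) (A := A) uniformContinuous_const.uniformContinuousOn
    fun _ _ => rfl
  obtain ⟨e, he, k⟩ := ht.two this (c := fun l => a (l.map fun x => H (1, x)) -
    a (l.map fun x => H (0, x)) + a (l.map fun _ => p))
    (c' := dd fun m => t m + u (m.map fun _ => p)) fun l e1 e2 => by
      rw [e1, e2, dd, dd, dd, d_add, d_map]
  refine memB.2 ⟨_, trivial, e, he, fun l hl => Eq.trans ?_ (k l hl)⟩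
  beta_reduce
  rw [map_self h1 hl.2.1, List.map_congr_left fun x hx => h0 x (hl.2.1 x hx)]
  simp

theorem retr {A B : Set X} (hB : IsCompact B) (AB : A ⊆ B) (H : ℝ × X → X)
    (hH : ContinuousOn H (Icc 0 1 ×ˢ B)) (hm : MapsTo H (Icc 0 1 ×ˢ B) B)
    (h0 : ∀ x ∈ B, H (0, x) ∈ A) (h0' : ∀ x ∈ A, H (0, x) = x) (h1 : ∀ x ∈ B, H (1, x) = x)
    (q : ℕ) : (cx F B).h ⊤ q = (cx F A).h ⊤ q := by
  have ur : UniformContinuousOn (fun x => H (0, x)) B := hB.uniformContinuousOn_of_continuous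
    (hH.comp (by fun_prop) fun x hx => ⟨⟨le_rfl, zero_le_one⟩, hx⟩)
  refine rd_iso LinearMap.id (fun z hz => Submodule.mem_sup_left (Zmono AB _ _ hz))
    (fun y hy => ⟨fun l => y (l.map fun x => H (0, x)), ⟨trivial, ?_⟩, Submodule.mem_sup_right
      (Z_of fun l hl => ?_)⟩) fun z hz => ⟨fun h => ?_, fun h => Bmono AB _ _ h⟩
  · exact (Z.map hy.2 ur h0).one fun l e => (d_map _ _ _).trans e
  · simp [map_self h0' hl]
  · obtain ⟨u, -, hu⟩ := memB.1 h
    obtain ⟨t, ht⟩ := homot hB H hH hm z hz.2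
    obtain ⟨e, he, k⟩ := ht.two (hu.map ur h0) (c := fun l => z (l.map fun x => H (1, x)) -
      z (l.map fun x => H (0, x)) + z (l.map fun x => H (0, x)))
      (c' := dd fun m => t m + u (m.map fun x => H (0, x))) fun l e1 e2 => by
        rw [e1, show z _ = _ from e2, dd, dd, dd, d_add, d_map]
    refine memB.2 ⟨_, trivial, e, he, fun l hl => Eq.trans ?_ (k l hl)⟩
    beta_reduce
    rw [map_self h1 hl.2.1]
    simp

theorem mvh {A B : Set X} {r : ℝ} (hr : 0 < r)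
    (th : ∀ x ∈ A ∪ B, ∀ y ∈ A ∪ B, dist x y < r → x ∈ A ∨ y ∈ B)
    (hA : ∀ q, (cx F A).h ⊤ q = 0) (hB : ∀ q, (cx F B).h ⊤ q = 0) :
    (cx F (A ∪ B)).h ⊤ 0 = 0 ∧ ∀ q, (cx F (A ∪ B)).h ⊤ (q + 1) = (cx F (A ∩ B)).h ⊤ q := by
  classical
  have u : ∀ {q} {a b : List X → F}, Z q A a b → Z q B a b → Z q (A ∪ B) a b :=
    fun ⟨e, he, h⟩ ⟨e', he', h'⟩ => ⟨min r (min e e'), by positivity, fun l hl => by
      by_cases k : ∀ x ∈ l, x ∈ A
      · exact h l ⟨hl.1, k, (hl.mono ((min_le_right _ _).trans (min_le_left _ _)) le_rfl).2.2⟩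
      · push Not at k
        obtain ⟨x, hx, k⟩ := k
        exact h' l ⟨hl.1, fun y hy => (th x (hl.2.1 x hx) y (hl.2.1 y hy)
          ((hl.2.2 x hx y hy).trans_le (min_le_left _ _))).resolve_left k,
          (hl.mono ((min_le_right _ _).trans (min_le_right _ _)) le_rfl).2.2⟩⟩
  obtain ⟨α, β, γ, h0, h1, h2, h3⟩ := Cx.les ((cx F A).prod (cx F B)) (cx F (A ∩ B))
    (A := LinearMap.range (LinearMap.id.prod LinearMap.id)) (B := ⊤) (C := ⊤)
    (LinearMap.fst F _ _ - LinearMap.snd F _ _) (fun _ _ => trivial) le_top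
    (fun x => (map_sub (cx F (A ∩ B)).d x.1 x.2).symm)
    (fun q x hx => sub_mem (Z.mono hx.1 inter_subset_left) (Z.mono hx.2 inter_subset_right))
    (fun _ _ => trivial) (fun y _ => ⟨(y, 0), trivial, fun q => by simp⟩)
    (by rintro q _ ⟨x, rfl⟩; simp) fun q x _ ⟨e, he, h⟩ => by
      refine ⟨_, ⟨fun l => if ∀ y ∈ l, y ∈ A then x.1 l else x.2 l, rfl⟩,
        Z_of fun l hl => by simp [if_pos hl], e, he, fun l hl => ?_⟩
      by_cases k : ∀ y ∈ l, y ∈ A
      · have := h l ⟨hl.1, fun y hy => ⟨k y hy, hl.2.1 y hy⟩, hl.2.2⟩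
        simp [if_pos k] at this ⊢
        linear_combination -this
      · simp [if_neg k]
  have i : ∀ q, (cx F (A ∪ B)).h ⊤ q =
      ((cx F A).prod (cx F B)).h (LinearMap.range (LinearMap.id.prod LinearMap.id)) q := fun q => by
    refine rd_iso (LinearMap.id.prod LinearMap.id) (fun z hz => Submodule.mem_sup_left
      ⟨⟨z, rfl⟩, Z.mono hz.2 subset_union_left, Z.mono hz.2 subset_union_right⟩) ?_ fun z _ => ?_
    · rintro _ ⟨⟨y, rfl⟩, k⟩
      exact ⟨y, ⟨trivial, u k.1 k.2⟩, by simp⟩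
    · rw [Cx.mem_B, Cx.mem_B]
      constructor
      · rintro ⟨_, ⟨y, rfl⟩, k⟩
        exact ⟨y, trivial, u k.1 k.2⟩
      · rintro ⟨y, -, k⟩
        exact ⟨_, ⟨y, rfl⟩, Z.mono k subset_union_left, Z.mono k subset_union_right⟩
  have z : ∀ q, α q = 0 ∧ β q = 0 := fun q => by
    rw [← add_eq_zero, ← h2, ← Submodule.prod_top, Cx.h_prod, hA, hB, add_zero]
  exact ⟨by rw [i, h0, (z 0).1], fun q => by rw [i, h1, h3, (z _).1, (z _).2, add_zero, zero_add]⟩

theorem h_empty (q : ℕ) : (cx F (∅ : Set X)).h ⊤ q = if q = 0 then 1 else 0 := by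
  have n : ∀ q (a : List X → F), a ∈ (cx F (∅ : Set X)).N (q + 1) := fun q a =>
    ⟨1, one_pos, fun l hl => by
      obtain ⟨x, hx⟩ := List.exists_mem_of_length_pos (l := l) (by rw [hl.1]; omega)
      exact (hl.2.1 x hx).elim⟩
  cases q with
  | succ q => exact rd_zero.2 fun a _ => Submodule.mem_sup_right (n q a)
  | zero =>
    rw [if_pos rfl, Cx.h, rd_iso (Z := (cx F (∅ : Set X)).Z ⊤ 0) (B' := ⊥) (Z' := ⊤) (LinearMap.proj [] : (List X → F) →ₗ[F] F)
      (fun _ _ => Submodule.mem_sup_left trivial)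
      (fun y _ => ⟨fun _ => y, ⟨trivial, n 0 _⟩, by simp⟩) fun z _ => ?_]
    · rw [rd, Submodule.map_top, Submodule.range_mkQ, rank_top,
        (Submodule.quotEquivOfEqBot _ rfl).rank_eq, Module.rank_self]
    · rw [memB]
      constructor
      · exact fun h => ⟨0, trivial, 1, one_pos, fun l hl => by
          rw [List.length_eq_zero_iff.1 hl.1]; exact h⟩
      · rintro ⟨t, -, e, he, h⟩
        exact h [] ⟨rfl, by simp, by simp⟩

variable {E : Type} [NormedAddCommGroup E] [NormedSpace ℝ E]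

theorem nrm {v : E} (h : v ≠ 0) : ‖v‖⁻¹ • v ∈ sphere (0 : E) 1 := by
  simp [norm_smul, h]

theorem nrm_cont {S : Set (ℝ × E)} {v : ℝ × E → E} (hv : Continuous v) (h : ∀ p ∈ S, v p ≠ 0) :
    ContinuousOn (fun p => ‖v p‖⁻¹ • v p) S :=
  (hv.norm.continuousOn.inv₀ fun p hp => norm_ne_zero_iff.2 (h p hp)).smul hv.continuousOn

theorem sph_loc [ProperSpace E] {x : E} (hx : x ∈ sphere (0 : E) 1) {A : Set E} (hA : IsCompact A)
    (hs : A ⊆ sphere 0 1 \ {x}) : ∃ A', IsCompact A' ∧ A ⊆ A' ∧ A' ⊆ sphere 0 1 \ {x} ∧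
      ∀ q, (cx F A').Z ⊤ q ≤ (cx F A).B ⊤ q := by
  have x1 : ‖x‖ = 1 := by simpa using hx
  have k : ∀ p ∈ Icc (0 : ℝ) 1 ×ˢ A, ∀ c : ℝ, 0 ≤ c → p.1 • p.2 - (1 - p.1) • x ≠ c • x :=
    fun p hp c hc e => by
    have y1 : ‖p.2‖ = 1 := by simpa using (hs hp.2).1
    have e2 : p.1 • p.2 = (1 - p.1 + c) • x := by rw [add_smul, ← e]; abel
    have e3 := congrArg norm e2
    rw [norm_smul, norm_smul, x1, y1, Real.norm_of_nonneg hp.1.1,
      Real.norm_of_nonneg (by linarith [hp.1.2])] at e3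
    rw [show 1 - p.1 + c = p.1 by linarith] at e2
    exact (hs hp.2).2 (smul_right_injective E (by intro h; linarith) e2)
  have k0 : ∀ p ∈ Icc (0 : ℝ) 1 ×ˢ A, p.1 • p.2 - (1 - p.1) • x ≠ 0 := fun p hp => by
    simpa using k p hp 0 le_rfl
  have c := nrm_cont (by fun_prop) k0
  have nx : -x ∈ sphere 0 1 \ {x} := ⟨by simpa using hx, fun h => by
    have : (2 : ℝ) • x = 0 := by rw [two_smul]; nth_rewrite 1 [← show -x = x from h]; simp
    simp at this
    simp [this] at x1⟩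
  have h1 : ∀ y ∈ A, ‖(1 : ℝ) • y - (1 - 1 : ℝ) • x‖⁻¹ • ((1 : ℝ) • y - (1 - 1 : ℝ) • x) = y :=
    fun y hy => by simp [show ‖y‖ = 1 by simpa using (hs hy).1]
  refine ⟨insert (-x) (_ '' _), ((isCompact_Icc.prod hA).image_of_continuousOn c).insert _,
    fun y hy => Or.inr ⟨(1, y), ⟨⟨zero_le_one, le_rfl⟩, hy⟩, h1 y hy⟩, insert_subset nx ?_,
    nullh hA _ c (fun p hp => Or.inr ⟨p, hp, rfl⟩) (Or.inl rfl) (fun y _ => by simp [x1]) h1⟩
  rintro _ ⟨p, hp, rfl⟩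
  refine ⟨nrm (k0 p hp), fun h => k p hp _ (norm_nonneg (p.1 • p.2 - (1 - p.1) • x)) ?_⟩
  exact (inv_smul_eq_iff₀ (norm_ne_zero_iff.2 (k0 p hp))).1 h

theorem dec {φ : E →L[ℝ] ℝ} {N : E} (h1 : φ N = 1) (y : E) (a s c : ℝ) :
    φ (c • (a • N + s • (y - φ y • N))) = c * a ∧ c • (a • N + s • (y - φ y • N)) -
      φ (c • (a • N + s • (y - φ y • N))) • N = (c * s) • (y - φ y • N) := by
  have : φ (c • (a • N + s • (y - φ y • N))) = c * a := by simp [h1]
  exact ⟨this, by rw [this]; module⟩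

theorem cap [FiniteDimensional ℝ E] (W : Submodule ℝ E) {φ : E →L[ℝ] ℝ} {N : E} (hN : N ∈ W)
    (h1 : φ N = 1) (h2 : ‖N‖ = 1) (q : ℕ) :
    (cx F (sphere (0 : E) 1 ∩ W ∩ {y | 0 ≤ φ y + ‖y - φ y • N‖})).h ⊤ q = 0 := by
  have := FiniteDimensional.proper_real E
  have k0 : ∀ p ∈ Icc (0 : ℝ) 1 ×ˢ (sphere (0 : E) 1 ∩ W ∩ {y | 0 ≤ φ y + ‖y - φ y • N‖}),
      (1 - p.1 + p.1 * φ p.2) • N + p.1 • (p.2 - φ p.2 • N) ≠ 0 := fun p hp e => by
    obtain ⟨e1, e2⟩ := dec h1 p.2 (1 - p.1 + p.1 * φ p.2) p.1 1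
    rw [e] at e1 e2
    simp only [smul_zero, map_zero, one_mul, zero_smul, sub_zero] at e1 e2
    have p0 : p.1 ≠ 0 := fun h => by simp [h] at e1
    have w := (smul_eq_zero.1 e2.symm).resolve_left p0
    have f : 0 ≤ φ p.2 := by simpa [w] using hp.2.2
    have f1 : φ p.2 = 1 := by
      have := congrArg norm (sub_eq_zero.1 w)
      rw [norm_smul, h2, show ‖p.2‖ = 1 by simpa using hp.2.1.1, Real.norm_of_nonneg f] at this
      linarith
    rw [f1] at e1
    linarith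
  refine rd_zero.2 (nullh
    (B := sphere (0 : E) 1 ∩ W ∩ {y | 0 ≤ φ y + ‖y - φ y • N‖})
    (((isCompact_sphere 0 1).inter_right W.closed_of_finiteDimensional
    ).inter_right (isClosed_le continuous_const (by fun_prop))) _ (nrm_cont (by fun_prop) k0)
    (fun p hp => ⟨⟨nrm (k0 p hp), W.smul_mem _ (W.add_mem (W.smul_mem _ hN) (W.smul_mem _
      (W.sub_mem hp.2.1.2 (W.smul_mem _ hN))))⟩, ?_⟩) (p := N) ⟨⟨by simpa, hN⟩, by simp [h1]⟩
    (fun y _ => by simp [h2]) (fun y hy => by simp [show ‖y‖ = 1 by simpa using hy.1.1]) q)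
  rw [mem_ofPred_eq, (dec h1 _ _ _ _).2, (dec h1 _ _ _ _).1, norm_smul,
    Real.norm_of_nonneg (mul_nonneg (by positivity) hp.1.1), mul_assoc, ← mul_add]
  refine mul_nonneg (by positivity) ?_
  have := mul_nonneg hp.1.1 hp.2.2
  linarith [hp.1.2]

theorem sph_step [FiniteDimensional ℝ E] (W : Submodule ℝ E) {φ : E →L[ℝ] ℝ} {N : E} (hN : N ∈ W)
    (h1 : φ N = 1) (h2 : ‖N‖ = 1) (h3 : ∀ y, |φ y| ≤ ‖y‖) :
    (cx F (sphere (0 : E) 1 ∩ W)).h ⊤ 0 = 0 ∧ ∀ q, (cx F (sphere (0 : E) 1 ∩ W)).h ⊤ (q + 1) =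
      (cx F (sphere (0 : E) 1 ∩ W ∩ {y | φ y = 0})).h ⊤ q := by
  have := FiniteDimensional.proper_real E
  have c2 := cap (F := F) W (φ := -φ) (W.neg_mem hN) (by simp [h1]) (by simp [h2])
  simp only [neg_apply, smul_neg, neg_smul, neg_neg] at c2
  have tr : ∀ y ∈ sphere (0 : E) 1, 1 ≤ |φ y| + ‖y - φ y • N‖ := fun y hy => by
    have := norm_add_le (φ y • N) (y - φ y • N)
    rwa [add_sub_cancel, norm_smul, h2, mul_one, show ‖y‖ = 1 by simpa using hy] at this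
  have un : sphere (0 : E) 1 ∩ W ∩ {y | 0 ≤ φ y + ‖y - φ y • N‖} ∪
      sphere (0 : E) 1 ∩ W ∩ {y | 0 ≤ -φ y + ‖y - φ y • N‖} = sphere 0 1 ∩ W := by
    rw [← inter_union_distrib_left, inter_eq_left]
    intro y _
    rcases le_total 0 (φ y) with h | h
    · exact Or.inl (add_nonneg h (norm_nonneg _))
    · exact Or.inr (add_nonneg (neg_nonneg.2 h) (norm_nonneg _))
  obtain ⟨m1, m2⟩ := mvh one_pos (fun x hx y hy d => by
    rw [un] at hx hy
    by_contra! k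
    have k1 : φ x + ‖x - φ x • N‖ < 0 := not_le.1 fun h => k.1 ⟨hx, h⟩
    have k2 : -φ y + ‖y - φ y • N‖ < 0 := not_le.1 fun h => k.2 ⟨hy, h⟩
    have t1 := tr x hx.1
    have t2 := tr y hy.1
    rw [abs_of_neg (by linarith [norm_nonneg (x - φ x • N)])] at t1
    rw [abs_of_pos (by linarith [norm_nonneg (y - φ y • N)])] at t2
    have := (neg_le_abs _).trans (h3 (x - y))
    rw [map_sub, ← dist_eq_norm] at this
    linarith) (cap W hN h1 h2) c2
  rw [un] at m1 m2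
  refine ⟨m1, fun q => (m2 q).trans ?_⟩
  rw [← inter_inter_distrib_left]
  have k0 : ∀ p ∈ Icc (0 : ℝ) 1 ×ˢ (sphere (0 : E) 1 ∩ W ∩ ({y | 0 ≤ φ y + ‖y - φ y • N‖} ∩
      {y | 0 ≤ -φ y + ‖y - φ y • N‖})),
      (p.1 * φ p.2) • N + (1 : ℝ) • (p.2 - φ p.2 • N) ≠ 0 := fun p hp e => by
    obtain ⟨-, e2⟩ := dec h1 p.2 (p.1 * φ p.2) 1 1
    rw [e] at e2
    simp only [smul_zero, map_zero, one_mul, zero_smul, sub_zero, one_smul] at e2
    have t := tr _ hp.2.1.1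
    have a1 : 0 ≤ φ p.2 + _ := hp.2.2.1
    have a2 : 0 ≤ -φ p.2 + _ := hp.2.2.2
    rw [← e2, norm_zero] at t a1 a2
    rw [show φ p.2 = 0 by linarith] at t
    norm_num at t
  have mp : ∀ p ∈ Icc (0 : ℝ) 1 ×ˢ (sphere (0 : E) 1 ∩ W ∩ ({y | 0 ≤ φ y + ‖y - φ y • N‖} ∩
      {y | 0 ≤ -φ y + ‖y - φ y • N‖})), _ ∈ sphere (0 : E) 1 ∩ W := fun p hp =>
    ⟨nrm (k0 p hp), W.smul_mem _ (W.add_mem (W.smul_mem _ hN) (W.smul_mem _
      (W.sub_mem hp.2.1.2 (W.smul_mem _ hN))))⟩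
  refine retr (A := sphere (0 : E) 1 ∩ W ∩ {y | φ y = 0}) (((isCompact_sphere 0 1).inter_right W.closed_of_finiteDimensional
    ).inter_right ((isClosed_le continuous_const (by fun_prop)).inter
    (isClosed_le continuous_const (by fun_prop))))
    (fun y hy => ⟨hy.1, by simp [show φ y = 0 from hy.2], by simp [show φ y = 0 from hy.2]⟩) _
    (nrm_cont (by fun_prop) k0) (fun p hp => ⟨mp p hp, ?_⟩)
    (fun y hy => ⟨mp (0, y) ⟨⟨le_rfl, zero_le_one⟩, hy⟩, by simp [h1]⟩)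
    (fun y hy => by simp [show φ y = 0 from hy.2, show ‖y‖ = 1 by simpa using hy.1.1])
    (fun y hy => by simp [show ‖y‖ = 1 by simpa using hy.1.1]) q
  have a1 : 0 ≤ φ p.2 + _ := hp.2.2.1
  have a2 : 0 ≤ -φ p.2 + _ := hp.2.2.2
  have b1 := hp.1.1
  have b2 := hp.1.2
  rw [mem_inter_iff, mem_ofPred_eq, mem_ofPred_eq, (dec h1 _ _ _ _).2, (dec h1 _ _ _ _).1, norm_smul,
    Real.norm_of_nonneg (by positivity), mul_one, ← mul_add, ← mul_neg, ← mul_add]
  constructor <;> refine mul_nonneg (by positivity) ?_ <;>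
    nlinarith [norm_nonneg (p.2 - φ p.2 • N)]

theorem sph (m q : ℕ) :
    (cx F (sphere (0 : EuclideanSpace ℝ (Fin m)) 1)).h ⊤ q = if q = m then 1 else 0 := by
  let W : ℕ → Submodule ℝ (EuclideanSpace ℝ (Fin m)) := fun k =>
    { carrier := {y | ∀ i : Fin m, k ≤ i → y i = 0}
      add_mem' := fun ha hb i hi => by simp [ha i hi, hb i hi]
      zero_mem' := fun _ _ => rfl
      smul_mem' := fun c y hy i hi => by simp [hy i hi] }
  have : ∀ k ≤ m, ∀ q, (cx F (sphere (0 : EuclideanSpace ℝ (Fin m)) 1 ∩ W k)).h ⊤ q =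
      if q = k then 1 else 0 := fun k hk => by
    induction k with
    | zero =>
      intro q
      rw [← h_empty (F := F) (X := EuclideanSpace ℝ (Fin m))]
      congr 2
      refine eq_empty_of_forall_notMem fun y hy => ?_
      have : y = 0 := by ext i; exact hy.2 i (Nat.zero_le _)
      simpa [this] using hy.1
    | succ k ih =>
      obtain ⟨a, b⟩ := sph_step (F := F) (W (k + 1)) (φ := EuclideanSpace.proj ⟨k, hk⟩)
        (N := EuclideanSpace.single ⟨k, hk⟩ 1) (fun i hi => by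
          simp [Fin.ext_iff]; omega) (by simp) (by simp)
        fun y => PiLp.norm_apply_le y _
      intro q
      cases q with
      | zero => simpa using a
      | succ q =>
        have : (W (k + 1) : Set (EuclideanSpace ℝ (Fin m))) ∩
            {y | EuclideanSpace.proj (⟨k, hk⟩ : Fin m) y = (0 : ℝ)} = W k := by
          refine Subset.antisymm (fun y h i hi => ?_) fun y h => ⟨fun i hi => h i (by omega),
            h _ le_rfl⟩
          rcases hi.eq_or_lt with e | e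
          · obtain rfl : i = ⟨k, hk⟩ := Fin.ext e.symm
            exact h.2
          · exact h.1 i e
        rw [b, inter_assoc, this, ih (by omega)]
        simp
  rw [← this m le_rfl q, inter_eq_left.2 fun y _ i hi => absurd i.2 (by omega)]

end Pool.Agent.H.MP_d94aa4_gt
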