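import Mathlib
import Pool.Agent.H.MP_d94aa4_gt.B

namespace Pool.Agent.H.MP_d94aa4_gt

open Set Pool.Agent.Lib.helper7.AS Metric Filter Topology

theorem cpt {Y : Type} [TopologicalSpace Y] {K : Set Y} (hK : IsCompact K) {f : Y → ℝ}
    (hf : ContinuousOn f K) {P : Y → Prop} (h : ∀ x ∈ K, f x ≤ 0 → ∀ᶠ y in 𝓝[K] x, P y) :
    ∃ ρ > 0, ∀ x ∈ K, f x < ρ → P x := by
  refine hK.induction_on (p := fun s => ∃ ρ > 0, ∀ x ∈ s, f x < ρ → P x)
    ⟨1, one_pos, by simp⟩ (fun s t st ⟨ρ, h1, h2⟩ => ⟨ρ, h1, fun x hx => h2 x (st hx)⟩)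
    (fun s t ⟨ρ, h1, h2⟩ ⟨ρ', h3, h4⟩ => ⟨min ρ ρ', lt_min h1 h3, fun x hx k =>
      hx.elim (fun hx => h2 x hx (k.trans_le (min_le_left _ _)))
        fun hx => h4 x hx (k.trans_le (min_le_right _ _))⟩) fun x hx => ?_
  by_cases e : f x ≤ 0
  · exact ⟨_, h x hx e, 1, one_pos, fun y hy _ => hy⟩
  · push Not at e
    exact ⟨_, (hf x hx).eventually (lt_mem_nhds (half_lt_self e)), f x / 2, half_pos e,
      fun y hy k => absurd k (not_lt.2 (le_of_lt hy))⟩

theorem cdist {Y X : Type} [TopologicalSpace Y] [MetricSpace X] {K : Set Y} {f g : Y → X}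
    (hf : ContinuousOn f K) (hg : ContinuousOn g K) : ContinuousOn (fun y => dist (f y) (g y)) K :=
  continuous_dist.comp_continuousOn (hf.prodMk hg)

theorem colour {X ι : Type} [MetricSpace X] [Nonempty X] [Fintype ι] [DecidableEq ι] {g : X → X}
    (g3 : ∀ x, g (g (g x)) = x) {A : Set X} (hA : IsCompact A) (mg : MapsTo g A A)
    (hg : ContinuousOn g A) {q : X → ι → ℝ} (hq : ContinuousOn q A) (qg : ∀ x, q (g x) = q x)
    (qs : ∀ x ∈ A, ∀ y ∈ A, q x = q y → x = y ∨ x = g y ∨ x = g (g y)) {ε : ℝ} (hε : 0 < ε) :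
    ∃ (π : X → X) (c : X → ℕ) (δ : ℝ), 0 < δ ∧ (∀ x, π (g x) = g (π x)) ∧ (∀ x, c (g x) = c x) ∧
      (∀ x, c x < Fintype.card (ι → ZMod 2)) ∧ (∀ x ∈ A, π x ∈ A ∧ dist x (π x) < ε) ∧
      ∀ x ∈ A, ∀ y ∈ A, dist x y < δ → c x = c y → π x = π y := by
  have hg2 := hg.comp hg mg
  obtain ⟨near, hn⟩ : ∃ near : X → X → Prop, ∀ y z, near y z ↔ z ∈ A ∧ g z = z ∧
    dist y z < ε / 2 ∧ dist (g y) z < ε / 2 ∧ dist (g (g y)) z < ε / 2 := ⟨_, fun _ _ => Iff.rfl⟩
  obtain ⟨ρ, ρ0, hρ⟩ := cpt hA (f := fun y => dist y (g y)) (cdist continuousOn_id hg)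
    (P := fun y => ∃ z, near y z) fun x hx e => by
      have e' : g x = x := (dist_le_zero.1 e).symm
      have k : ∀ f : X → X, ContinuousOn f A → f x = x → ∀ᶠ y in 𝓝[A] x, dist (f y) x < ε / 2 :=
        fun f hf e => (hf x hx).eventually (p := fun w => dist w x < ε / 2)
          (by rw [e]; exact ball_mem_nhds x (half_pos hε))
      filter_upwards [k id continuousOn_id rfl, k g hg e', k _ hg2 (by simp [e'])] with y a b c
      exact ⟨x, (hn _ _).2 ⟨hx, e', a, b, c⟩⟩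
  have ng : ∀ y z, near (g y) z → near y z := fun y z h => by
    rw [hn, g3] at h
    exact (hn _ _).2 ⟨h.1, h.2.1, h.2.2.2.2, h.2.2.1, h.2.2.2.1⟩
  have sep : ∀ y ∈ A, (¬ ∃ z, near y z) → ∀ w w', (w = y ∨ w = g y ∨ w = g (g y)) →
      (w' = y ∨ w' = g y ∨ w' = g (g y)) → dist w w' < ρ → w = w' := fun y hy h w w' e e' k => by
    have a := fun t => h (hρ y hy t)
    have b := fun t => h ((hρ _ (mg hy) t).imp fun z => ng y z)
    have c := fun t => h ((hρ _ (mg (mg hy)) t).imp fun z u => ng y z (ng _ z u))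
    simp only [g3] at c
    rcases e with rfl | rfl | rfl <;> rcases e' with e' | e' | e' <;> rw [e'] at k ⊢ <;>
      first | exact (a k).elim | exact (b k).elim | exact (c k).elim |
        exact (a (by rwa [dist_comm])).elim | exact (b (by rwa [dist_comm])).elim |
        exact (c (by rwa [dist_comm])).elim
  obtain ⟨θ, θ0, θ1, θ2⟩ : ∃ θ > 0, θ ≤ ρ / 3 ∧ θ ≤ ε / 2 :=
    ⟨min (ρ / 3) (ε / 2), by positivity, min_le_left _ _, min_le_right _ _⟩
  have f1 : ContinuousOn (Prod.fst : X × X → X) (A ×ˢ A) := continuousOn_fst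
  have f2 : ContinuousOn (Prod.snd : X × X → X) (A ×ˢ A) := continuousOn_snd
  have m1 : MapsTo (Prod.fst : X × X → X) (A ×ˢ A) A := fun _ h => h.1
  have m2 : MapsTo (Prod.snd : X × X → X) (A ×ˢ A) A := fun _ h => h.2
  obtain ⟨η, η0, hη⟩ := cpt (hA.prod hA) (f := fun p => dist (q p.1) (q p.2))
    (cdist (hq.comp f1 m1) (hq.comp f2 m2)) (P := fun p => ∃ w, (w = p.2 ∨ w = g p.2 ∨
      w = g (g p.2)) ∧ dist p.1 w < θ ∧ dist (g p.1) (g w) < θ) fun p hp e => by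
      have k : ∀ f : X → X, ContinuousOn f A → MapsTo f A A → p.1 = f p.2 →
          ∀ᶠ y in 𝓝[A ×ˢ A] p, dist y.1 (f y.2) < θ ∧ dist (g y.1) (g (f y.2)) < θ :=
        fun f hf mf e => ((cdist f1 (hf.comp f2 m2) p hp).eventually (gt_mem_nhds
          (by simpa [e] using θ0))).and ((cdist (hg.comp f1 m1) ((hg.comp hf mf).comp f2 m2) p
          hp).eventually (gt_mem_nhds (by simpa [e] using θ0)))
      rcases qs _ hp.1 _ hp.2 (dist_le_zero.1 e) with h | h | h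
      · exact (k id continuousOn_id (mapsTo_id _) h).mono fun y hy => ⟨_, Or.inl rfl, hy⟩
      · exact (k g hg mg h).mono fun y hy => ⟨_, Or.inr (Or.inl rfl), hy⟩
      · exact (k _ hg2 (mg.comp mg) h).mono fun y hy => ⟨_, Or.inr (Or.inr rfl), hy⟩
  obtain ⟨κ, hκ⟩ : ∃ κ : X → ι → ℤ, ∀ x i, κ x i = ⌊q x i / η⌋ := ⟨_, fun _ _ => rfl⟩
  have κg : ∀ x, κ (g x) = κ x := fun x => funext fun i => by rw [hκ, hκ, qg]
  obtain ⟨r, r1, r2⟩ : ∃ r : (ι → ℤ) → X, (∀ x ∈ A, r (κ x) ∈ A) ∧ ∀ x ∈ A, κ (r (κ x)) = κ x :=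
    ⟨Function.invFunOn κ A, fun x hx => Function.invFunOn_mem ⟨x, hx, rfl⟩,
      fun x hx => Function.invFunOn_eq ⟨x, hx, rfl⟩⟩
  have cl : ∀ x ∈ A, ∃ w, (w = r (κ x) ∨ w = g (r (κ x)) ∨ w = g (g (r (κ x)))) ∧ dist x w < θ ∧
      dist (g x) (g w) < θ := fun x hx => hη (x, r (κ x)) ⟨hx, r1 x hx⟩
    ((dist_pi_lt_iff η0).2 fun i => by
      have := Int.abs_sub_lt_one_of_floor_eq_floor
        (((hκ _ i).symm.trans (congrFun (r2 x hx) i).symm).trans (hκ _ i))
      rwa [← sub_div, abs_div, abs_of_pos η0, div_lt_one η0] at this)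
  choose! z hz using fun y (h : ∃ z, near y z) => h
  have sp : ∀ x, ∃ w, (x ∉ A → w = x) ∧ (x ∈ A → ((∃ z, near (r (κ x)) z) → w = z (r (κ x))) ∧
      ((¬ ∃ z, near (r (κ x)) z) → (w = r (κ x) ∨ w = g (r (κ x)) ∨ w = g (g (r (κ x)))) ∧
        dist x w < θ ∧ dist (g x) (g w) < θ)) := fun x => by
    by_cases hx : x ∈ A
    · by_cases h : ∃ z, near (r (κ x)) z
      · exact ⟨_, fun k => absurd hx k, fun _ => ⟨fun _ => rfl, fun k => absurd h k⟩⟩
      · obtain ⟨w, hw⟩ := cl x hx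
        exact ⟨w, fun k => absurd hx k, fun _ => ⟨fun k => absurd k h, fun _ => hw⟩⟩
    · exact ⟨x, fun _ => rfl, fun k => absurd k hx⟩
  choose π p1 p2 using sp
  obtain ⟨δ, δ0, hδ⟩ := Metric.uniformContinuousOn_iff.1 (hA.uniformContinuousOn_of_continuous hq)
    η η0
  refine ⟨π, fun x => Fintype.equivFin (ι → ZMod 2) fun i => κ x i, min δ θ, lt_min δ0 θ0,
    fun x => ?_, fun x => by simp only [κg], fun x => Fin.is_lt _, fun x hx => ?_,
    fun x hx y hy d e => ?_⟩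
  · by_cases hx : x ∈ A
    · have a := p2 _ (mg hx)
      rw [κg] at a
      by_cases h : ∃ z, near (r (κ x)) z
      · rw [a.1 h, (p2 x hx).1 h, ((hn _ _).1 (hz _ h)).2.1]
      · obtain ⟨b1, -, b2⟩ := (p2 x hx).2 h
        refine sep _ (r1 x hx) h _ _ (a.2 h).1 ?_ ?_
        · rcases b1 with e | e | e <;> simp [e, g3]
        · linarith [dist_triangle_left (π (g x)) (g (π x)) (g x), (a.2 h).2.1]
    · rw [p1 x hx, p1 _ fun h => hx (g3 x ▸ mg (mg h))]
  · by_cases h : ∃ z, near (r (κ x)) z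
    · obtain ⟨a1, -, a2, a3, a4⟩ := (hn _ _).1 (hz _ h)
      rw [(p2 x hx).1 h]
      obtain ⟨w, b1, b2, -⟩ := cl x hx
      refine ⟨a1, ?_⟩
      have := dist_triangle x w (z (r (κ x)))
      rcases b1 with e | e | e <;> rw [e] at this b2 <;> linarith
    · obtain ⟨b1, b2, -⟩ := (p2 x hx).2 h
      refine ⟨?_, by linarith⟩
      rcases b1 with e | e | e <;> rw [e]
      exacts [r1 x hx, mg (r1 x hx), mg (mg (r1 x hx))]
  · have e1 : κ x = κ y := funext fun i => by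
      have a := congrFun ((Fintype.equivFin (ι → ZMod 2)).injective (Fin.ext e)) i
      rw [ZMod.intCast_eq_intCast_iff'] at a
      have b := (dist_le_pi_dist _ _ i).trans_lt (hδ x hx y hy (d.trans_le (min_le_left _ _)))
      rw [Real.dist_eq, ← div_lt_one η0, ← abs_of_pos η0, ← abs_div, sub_div, abs_lt] at b
      have b1 := Int.floor_le_floor (show q x i / η ≤ q y i / η + 1 by linarith)
      have b2 := Int.floor_le_floor (show q y i / η ≤ q x i / η + 1 by linarith)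
      rw [Int.floor_add_one, ← hκ, ← hκ] at b1 b2
      push_cast at a
      omega
    have a := p2 y hy
    rw [← e1] at a
    by_cases h : ∃ z, near (r (κ x)) z
    · rw [a.1 h, (p2 x hx).1 h]
    · obtain ⟨b1, b2, -⟩ := (p2 x hx).2 h
      refine sep _ (r1 x hx) h _ _ b1 (a.2 h).1 ?_
      linarith [dist_triangle4 (π x) x y (π y), (a.2 h).2.1, dist_comm x (π x),
        d.trans_le (min_le_right _ _)]

theorem sepq {m : ℕ} {g : EuclideanSpace ℝ (Fin m) → EuclideanSpace ℝ (Fin m)}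
    (g3 : ∀ x, g (g (g x)) = x) {A : Set (EuclideanSpace ℝ (Fin m))} (mg : MapsTo g A A)
    (hg : ContinuousOn g A) : ∃ q : EuclideanSpace ℝ (Fin m) → Fin (3 * m + 1) × Fin 3 → ℝ,
      ContinuousOn q A ∧ (∀ x, q (g x) = q x) ∧
      ∀ x y, q x = q y → x = y ∨ x = g y ∨ x = g (g y) := by
  obtain ⟨L, hL⟩ : ∃ L : Fin (3 * m + 1) → EuclideanSpace ℝ (Fin m) → ℝ,
    ∀ t x, L t x = ∑ i, x i * ((t : ℕ) : ℝ) ^ (i : ℕ) := ⟨_, fun _ _ => rfl⟩
  have cL : ∀ t, Continuous (L t) := fun t => by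
    rw [show L t = _ from funext (hL t)]; fun_prop
  refine ⟨fun x p => ![L p.1 x + L p.1 (g x) + L p.1 (g (g x)), L p.1 x * L p.1 (g x) +
    L p.1 (g x) * L p.1 (g (g x)) + L p.1 (g (g x)) * L p.1 x,
    L p.1 x * L p.1 (g x) * L p.1 (g (g x))] p.2, continuousOn_pi.2 fun p => ?_, fun x => ?_,
    fun x y h => ?_⟩
  · have a := (cL p.1).continuousOn (s := A)
    have b := (cL p.1).comp_continuousOn hg
    have c := (cL p.1).comp_continuousOn (hg.comp hg mg)
    obtain ⟨t, j⟩ := p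
    fin_cases j
    exacts [(a.add b).add c, ((a.mul b).add (b.mul c)).add (c.mul a), (a.mul b).mul c]
  · ext ⟨t, j⟩
    fin_cases j <;> simp [g3] <;> ring
  · by_contra! k
    have P : ∀ w, x ≠ w → ∃ p : Polynomial ℝ, p ≠ 0 ∧ p.natDegree ≤ m ∧
        ∀ t : Fin (3 * m + 1), p.eval ((t : ℕ) : ℝ) = L t x - L t w := fun w hw => by
      refine ⟨∑ i : Fin m, Polynomial.monomial i (x i - w i), fun e => hw ?_,
        Polynomial.natDegree_sum_le_of_forall_le _ _ fun i _ =>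
          (Polynomial.natDegree_monomial_le _).trans i.2.le, fun t => ?_⟩
      · ext i
        have := congrArg (Polynomial.coeff · i) e
        simpa [Polynomial.coeff_monomial, Fin.val_inj, sub_eq_zero] using this
      · simp [Polynomial.eval_finset_sum, hL, sub_mul]
    obtain ⟨p1, a1, a2, a3⟩ := P _ k.1
    obtain ⟨p2, b1, b2, b3⟩ := P _ k.2.1
    obtain ⟨p3, c1, c2, c3⟩ := P _ k.2.2
    refine mul_ne_zero (mul_ne_zero a1 b1) c1
      (Polynomial.eq_zero_of_natDegree_lt_card_of_eval_eq_zero _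
        (f := fun t : Fin (3 * m + 1) => ((t : ℕ) : ℝ))
        (Nat.cast_injective.comp Fin.val_injective) (fun t => ?_) ?_)
    · have e0 := congrFun h (t, 0)
      have e1 := congrFun h (t, 1)
      have e2 := congrFun h (t, 2)
      simp at e0 e1 e2
      rw [Polynomial.eval_mul, Polynomial.eval_mul, a3, b3, c3]
      linear_combination (L t x) ^ 2 * e0 - L t x * e1 + e2
    · have := Polynomial.natDegree_mul_le (p := p1 * p2) (q := p3)
      have := Polynomial.natDegree_mul_le (p := p1) (q := p2)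
      rw [Fintype.card_fin]
      omega

end Pool.Agent.H.MP_d94aa4_gt
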