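import Mathlib
import Pool.Agent.H.MP_d94aa4_gt.C

namespace Pool.Agent.H.MP_d94aa4_gt

open Set Pool.Agent.Lib.helper7.AS Metric

variable {F : Type} [Field F] {X : Type}

/-- coboundary as a linear map -/
def DD : (List X → F) →ₗ[F] (List X → F) where
  toFun := dd
  map_add' a b := funext fun l => d_add l a b
  map_smul' c a := funext fun l => d_mul l c a

theorem DD_apply (a : List X → F) (l : List X) : DD a l = d l a := rfl

/-- pullback -/
def pb (f : X → X) : (List X → F) →ₗ[F] (List X → F) := LinearMap.funLeft F F (List.map f)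

theorem pb_apply (f : X → X) (a : List X → F) (l : List X) : pb f a l = a (l.map f) := rfl

theorem pb_DD (f : X → X) (a : List X → F) : pb f (DD a) = DD (pb f a) :=
  funext fun l => (d_map f l a).symm

/-- cone -/
def io (x : X) : (List X → F) →ₗ[F] (List X → F) := LinearMap.funLeft F F (List.cons x)

theorem io_apply (x : X) (a : List X → F) (l : List X) : io x a l = a (x :: l) := rfl

theorem io_DD (x : X) (a : List X → F) : io x (DD a) = a - DD (io x a) := rfl

/-- prism -/
def PP (π : X → X) : List X → (List X → F) →ₗ[F] F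
  | [] => 0
  | x :: l => LinearMap.proj (x :: π x :: l.map π) - PP π l ∘ₗ io x

theorem PP_eq (π : X → X) (l : List X) (a : List X → F) : PP π l a = pr id π l a := by
  induction l generalizing a with
  | nil => rfl
  | cons x l ih => simp only [PP, pr, LinearMap.sub_apply, LinearMap.comp_apply, ih]; rfl

theorem PP_map {π g : X → X} (h : ∀ x, π (g x) = g (π x)) (l : List X) (a : List X → F) :
    PP π (l.map g) a = PP π l (pb g a) := by
  induction l generalizing a with
  | nil => rfl
  | cons x l ih =>
    simp only [List.map_cons, PP, LinearMap.sub_apply, LinearMap.comp_apply, ih,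
      LinearMap.proj_apply, pb_apply, List.map_map, h]
    rw [show π ∘ g = g ∘ π from funext h]
    rfl

variable (c : X → ℕ)

/-- an entry of least colour -/
def am : X → List X → X
  | a, [] => a
  | a, b :: l => if c a ≤ c (am b l) then a else am b l

theorem am_mem (a : X) (l : List X) : am c a l ∈ a :: l := by
  induction l generalizing a with
  | nil => simp [am]
  | cons b l ih =>
    rw [am]; split_ifs
    · simp
    · exact List.mem_cons_of_mem _ (ih b)

theorem am_le (a : X) (l : List X) : ∀ x ∈ a :: l, c (am c a l) ≤ c x := by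
  induction l generalizing a with
  | nil => simp [am]
  | cons b l ih =>
    intro x hx
    have := ih b
    rw [am]
    rcases List.mem_cons.1 hx with rfl | hx <;> split_ifs with h
    exacts [le_rfl, (not_le.1 h).le, h.trans (this x hx), this x hx]

theorem am_map {g : X → X} (h : ∀ x, c (g x) = c x) (a : X) (l : List X) :
    am c (g a) (l.map g) = g (am c a l) := by
  induction l generalizing a with
  | nil => rfl
  | cons b l ih => simp only [List.map_cons, am, ih, h, apply_ite g]

/-- apex -/
def ap (x0 : X) : List X → X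
  | [] => x0
  | a :: l => am c a l

/-- normalized cone -/
def io' (x : X) : (List X → F) →ₗ[F] (List X → F) :=
  LinearMap.pi fun l => if l.head?.map c = some (c x) then 0 else LinearMap.proj (x :: l)

theorem io'_apply (x : X) (a : List X → F) (l : List X) :
    io' c x a l = if l.head?.map c = some (c x) then 0 else a (x :: l) := by
  simp only [io', LinearMap.pi_apply]
  split_ifs <;> rfl

variable (x0 : X)

/-- sorting operator -/
def SS : ℕ → (List X → F) →ₗ[F] (List X → F)
  | 0 => LinearMap.id
  | n + 1 => LinearMap.pi fun l => LinearMap.proj l ∘ₗ DD ∘ₗ SS n ∘ₗ io' c (ap c x0 l)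

theorem SS_succ (n : ℕ) (a : List X → F) (l : List X) :
    SS c x0 (n + 1) a l = d l (SS c x0 n (io' c (ap c x0 l) a)) := rfl

/-- sorting homotopy -/
def HH : ℕ → (List X → F) →ₗ[F] (List X → F)
  | 0 => 0
  | n + 1 => LinearMap.pi fun l =>
      LinearMap.proj l ∘ₗ (LinearMap.id - SS c x0 (n + 1) - DD ∘ₗ HH n) ∘ₗ io (ap c x0 l)

theorem HH_succ (n : ℕ) (a : List X → F) (l : List X) : HH c x0 (n + 1) a l =
    a (ap c x0 l :: l) - SS c x0 (n + 1) (io (ap c x0 l) a) l -
      d l (HH c x0 n (io (ap c x0 l) a)) := rfl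

variable {c x0}

theorem ap_mem {n : ℕ} {l : List X} (h : l.length = n + 1) :
    ap c x0 l ∈ l ∧ ∀ x ∈ l, c (ap c x0 l) ≤ c x := by
  cases l with
  | nil => simp at h
  | cons a l => exact ⟨am_mem c a l, am_le c a l⟩

theorem SS_dep (n : ℕ) (a : List X → F) (l : List X) (hl : l.length = n)
    (h : ∀ m : List X, m.length = n → (∀ x ∈ m, x ∈ l) → (m.map c).Pairwise (· < ·) → a m = 0) :
    SS c x0 n a l = 0 := by
  induction n generalizing a l with
  | zero =>
    obtain rfl := List.length_eq_zero_iff.1 hl
    exact h [] rfl (by simp) (by simp)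
  | succ n ih =>
    rw [SS_succ]
    refine d_zero _ _ fun m hm e => ih _ _ (by omega) fun k k1 k2 k3 => ?_
    rw [io'_apply]
    split_ifs with t
    · rfl
    · obtain ⟨a1, a2⟩ := ap_mem (c := c) (x0 := x0) hl
      refine h _ (by simp [k1]) (List.forall_mem_cons.2 ⟨a1, fun x hx => hm.subset (k2 x hx)⟩) ?_
      cases k with
      | nil => simp
      | cons b k =>
        have : c (ap c x0 l) < c b := lt_of_le_of_ne (a2 b (hm.subset (k2 b (by simp))))
          fun e => t (by simp [e])
        rw [List.map_cons, List.pairwise_cons] at k3 ⊢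
        refine ⟨List.forall_mem_cons.2 ⟨this, fun y hy => this.trans (k3.1 y hy)⟩, ?_⟩
        exact List.pairwise_cons.2 k3

theorem HH_dep (n : ℕ) (a : List X → F) (l : List X) (hl : l.length = n)
    (h : ∀ m : List X, m.length = n + 1 → (∀ x ∈ m, x ∈ l) → a m = 0) : HH c x0 n a l = 0 := by
  induction n generalizing a l with
  | zero => rfl
  | succ n ih =>
    have a1 := (ap_mem (c := c) (x0 := x0) hl).1
    have k : ∀ m : List X, m.length = n + 1 → (∀ x ∈ m, x ∈ l) → io (ap c x0 l) a m = 0 :=
      fun m e hm => h _ (by simp [e]) (List.forall_mem_cons.2 ⟨a1, hm⟩)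
    rw [HH_succ, SS_dep _ _ _ hl fun m e hm _ => k m e hm, d_zero, sub_zero, sub_zero]
    · exact k l hl fun _ hx => hx
    · exact fun m hm e => ih _ _ (by omega) fun j j1 j2 => k j j1 fun x hx => hm.subset (j2 x hx)

theorem ap_map {g : X → X} (h : ∀ x, c (g x) = c x) {n : ℕ} {l : List X} (hl : l.length = n + 1) :
    ap c x0 (l.map g) = g (ap c x0 l) := by
  cases l with
  | nil => simp at hl
  | cons a l => exact am_map c h a l

theorem SS_map {g : X → X} (h : ∀ x, c (g x) = c x) (n : ℕ) (a : List X → F) (l : List X)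
    (hl : l.length = n) : SS c x0 n a (l.map g) = SS c x0 n (pb g a) l := by
  induction n generalizing a l with
  | zero => rfl
  | succ n ih =>
    rw [SS_succ, SS_succ, ← d_map, ap_map h hl]
    refine d_congr _ _ _ fun m _ e => (ih _ _ (by omega)).trans ?_
    refine congrFun (congrArg _ (funext fun k => ?_)) m
    simp only [pb_apply, io'_apply, List.head?_map, Option.map_map, h, List.map_cons,
      show c ∘ g = c from funext h]

theorem HH_map {g : X → X} (h : ∀ x, c (g x) = c x) (n : ℕ) (a : List X → F) (l : List X)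
    (hl : l.length = n) : HH c x0 n a (l.map g) = HH c x0 n (pb g a) l := by
  induction n generalizing a l with
  | zero => rfl
  | succ n ih =>
    rw [HH_succ, HH_succ, ← d_map, ap_map h hl, SS_map h _ _ _ hl]
    congr 1
    exact d_congr _ _ _ fun m _ e => ih _ _ (by omega)

/-- cochains that only see the images under a map -/
def Inv (π : X → X) (c : X → ℕ) (a : List X → F) : Prop :=
  ∀ l m : List X, l.map π = m.map π → l.map c = m.map c → a l = a m

theorem SS_DD {π : X → X} (n : ℕ) (a : List X → F) (ha : Inv π c a) (l : List X)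
    (hl : l.length = n) (G : ∀ x ∈ l, ∀ y ∈ l, c x = c y → π x = π y) :
    SS c x0 n (DD a) l = d l (SS c x0 (n - 1) a) := by
  induction n generalizing a l with
  | zero => obtain rfl := List.length_eq_zero_iff.1 hl; rfl
  | succ n ih =>
    obtain ⟨a1, a2⟩ := ap_mem (c := c) (x0 := x0) hl
    generalize hv : ap c x0 l = v at a1 a2
    have iv : Inv π c (io' c v a) := fun m k e1 e2 => by
      rw [io'_apply, io'_apply, ← List.head?_map, ← List.head?_map, e2,
        ha (v :: m) (v :: k) (by simp [e1]) (by simp [e2])]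
    rw [SS_succ, hv, Nat.add_sub_cancel, ← sub_zero (d l (SS c x0 n a)),
      ← d_d l (SS c x0 (n - 1) (io' c v a)), ← d_sub]
    refine d_congr _ _ _ fun m hm e => ?_
    rw [← ih _ iv m (by omega) fun x hx y hy => G x (hm.subset hx) y (hm.subset hy), ← sub_eq_zero,
      ← Pi.sub_apply, ← map_sub, ← Pi.sub_apply, ← map_sub]
    refine SS_dep _ _ _ (by omega) fun k _ k2 k3 => ?_
    cases k with
    | nil => simp [io'_apply, DD_apply, d]
    | cons b k =>
      have hb := hm.subset (k2 b (by simp))
      rw [List.map_cons, List.pairwise_cons] at k3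
      have lt : ∀ j : List X, (∀ x ∈ j, c v < c x) → io' c v a j = a (v :: j) := fun j hj => by
        rw [io'_apply, if_neg]
        cases j with
        | nil => simp
        | cons z j => simpa using (hj z (by simp)).ne'
      have k4 : ∀ x ∈ k, c v < c x := fun x hx =>
        (a2 b hb).trans_lt (k3.1 _ (List.mem_map_of_mem hx))
      rw [Pi.sub_apply, Pi.sub_apply, io'_apply]
      split_ifs with t
      · have t' : c b = c v := by simpa using t
        rw [DD_apply, d, lt k k4, d_zero, ha (b :: k) (v :: k) (by simp [G b hb v a1 t'])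
          (by simp [t'])]
        · simp
        · exact fun j _ _ => by simp [io'_apply, t']
      · have t' : c v < c b := lt_of_le_of_ne (a2 b hb) fun e => t (by simp [e])
        rw [DD_apply, d, DD_apply, d_congr _ (io' c v a) (fun m => a (v :: m)), sub_self]
        exact fun j hj _ => lt j fun x hx => (List.forall_mem_cons (p := fun x => c v < c x)).2 ⟨t', k4⟩ x
          (hj.subset hx)

theorem HH_DD {π : X → X} (n : ℕ) (a : List X → F) (ha : Inv π c a) (l : List X)
    (hl : l.length = n) (G : ∀ x ∈ l, ∀ y ∈ l, c x = c y → π x = π y) :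
    HH c x0 n (DD a) l + d l (HH c x0 (n - 1) a) = a l - SS c x0 n a l := by
  induction n generalizing a l with
  | zero => obtain rfl := List.length_eq_zero_iff.1 hl; simp [HH, SS, d]
  | succ n ih =>
    rw [HH_succ]
    generalize ap c x0 l = v
    have iv : Inv π c (io v a) := fun m k e1 e2 =>
      ha (v :: m) (v :: k) (by simp [e1]) (by simp [e2])
    have e1 := SS_DD (x0 := x0) _ _ iv l hl G
    have e2 : d l (HH c x0 n (DD (io v a))) = d l fun m => io v a m - SS c x0 n (io v a) m -
        d m (HH c x0 (n - 1) (io v a)) := d_congr _ _ _ fun m hm e => by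
      rw [← ih _ iv m (by omega) fun x hx y hy => G x (hm.subset hx) y (hm.subset hy)]; ring
    rw [d_sub, d_sub, d_d] at e2
    rw [io_DD, map_sub, map_sub, Pi.sub_apply, e1, show (HH c x0 n a - HH c x0 n (DD (io v a))) =
      fun m => HH c x0 n a m - HH c x0 n (DD (io v a)) m from rfl, d_sub, e2, DD_apply, d]
    simp only [Nat.add_sub_cancel]
    rw [show d l (io v a) = d l fun m => a (v :: m) from rfl]
    ring

theorem vanish {m : ℕ} {g : EuclideanSpace ℝ (Fin m) → EuclideanSpace ℝ (Fin m)}
    (g3 : ∀ x, g (g (g x)) = x) {A : Set (EuclideanSpace ℝ (Fin m))} (hA : IsCompact A)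
    (mg : MapsTo g A A) (hg : ContinuousOn g A) {q : ℕ}
    (hq : Fintype.card (Fin (3 * m + 1) × Fin 3 → ZMod 2) < q)
    {a : List (EuclideanSpace ℝ (Fin m)) → F} (ha : Z (q + 1) A (dd a) 0) :
    ∃ T : (List (EuclideanSpace ℝ (Fin m)) → F) →ₗ[F] (List (EuclideanSpace ℝ (Fin m)) → F),
      (∀ b, pb g (T b) = T (pb g b)) ∧ (∀ b, (∀ l, (∀ x ∈ l, g x = x) → b l = 0) →
        ∀ l, (∀ x ∈ l, g x = x) → T b l = 0) ∧ Z q A a (dd (T a)) := by
  obtain ⟨e, he, ha⟩ := ha
  obtain ⟨u, u1, u2, u3⟩ := sepq g3 mg hg
  obtain ⟨π, c, δ, δ0, p1, p2, p3, p4, p5⟩ := colour g3 hA mg hg u1 u2 (fun x _ y _ => u3 x y)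
    (ε := e / 3) (by positivity)
  have pp : ∀ b : List _ → F, pb π (pb g b) = pb g (pb π b) := fun b => funext fun l => by
    simp only [pb_apply, List.map_map]
    rw [show g ∘ π = π ∘ g from funext fun x => (p1 x).symm]
  obtain ⟨T, hT⟩ : ∃ T : (List (EuclideanSpace ℝ (Fin m)) → F) →ₗ[F]
      (List (EuclideanSpace ℝ (Fin m)) → F), ∀ b l,
      T b l = HH c 0 l.length (pb π b) l - PP π l b :=
    ⟨LinearMap.pi fun l => LinearMap.proj l ∘ₗ HH c 0 l.length ∘ₗ pb π - PP π l, fun b l => by
      rw [LinearMap.pi_apply, LinearMap.sub_apply]; rfl⟩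
  refine ⟨T, fun b => funext fun l => ?_, fun b hb l hl => ?_, min δ (e / 3), by positivity, fun l hl => ?_⟩
  · rw [pb_apply, hT, hT, List.length_map, HH_map p2 _ _ _ rfl, PP_map p1, pp]
  · rw [hT]
    have f : ∀ x ∈ l, g (π x) = π x := fun x hx => by rw [← p1, hl x hx]
    rw [HH_dep _ _ _ rfl, PP_eq, pr_zero, sub_zero]
    · refine fun k _ hk => hb k fun y hy => ?_
      obtain ⟨x, hx, e | e⟩ := hk y hy <;> rw [e]
      exacts [hl x hx, f x hx]
    · refine fun k _ hk => hb _ fun y hy => ?_
      obtain ⟨x, hx, rfl⟩ := List.mem_map.1 hy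
      exact f x (hk x hx)
  · have sm : ∀ k : List _, k.length = q + 1 → (∀ y ∈ k, ∃ x ∈ l, y = id x ∨ y = π x) →
        d k a = 0 := fun k k1 k2 => by
      have : ∀ y ∈ k, y ∈ A ∧ ∃ x ∈ l, dist x y < e / 3 := fun y hy => by
        obtain ⟨x, hx, e | e⟩ := k2 y hy <;> rw [e]
        · exact ⟨hl.2.1 x hx, x, hx, by simpa using he⟩
        · exact ⟨(p4 x (hl.2.1 x hx)).1, x, hx, (p4 x (hl.2.1 x hx)).2⟩
      refine ha k ⟨k1, fun y hy => (this y hy).1, fun y hy z hz => ?_⟩
      obtain ⟨x, hx, a1⟩ := (this y hy).2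
      obtain ⟨w, hw, a2⟩ := (this z hz).2
      linarith [dist_triangle4 y x w z, dist_comm x y, (hl.2.2 x hx w hw).trans_le (min_le_right _ _)]
    have e1 := pr_d id π l a
    rw [pr_zero _ _ l (fun k => d k a) fun k k1 => sm k (by rw [k1, hl.1]), List.map_id] at e1
    have e2 := HH_DD (x0 := 0) (π := π) (c := c) q (pb π a) (fun k j e _ => by
      rw [pb_apply, pb_apply, e]) l hl.1 fun x hx y hy => p5 x (hl.2.1 x hx) y (hl.2.1 y hy)
      ((hl.2.2 x hx y hy).trans_le (min_le_left _ _))
    rw [HH_dep _ _ _ hl.1, SS_dep _ _ _ hl.1] at e2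
    · have e3 : dd (T a) l =
          d l fun k => HH c 0 (q - 1) (pb π a) k - pr id π k a := d_congr _ _ _ fun k _ e => by
        rw [← PP_eq, show q - 1 = k.length by have := hl.1; omega, hT]
      rw [e3, d_sub]
      rw [pb_apply] at e2
      linear_combination e1 - e2
    · intro k k1 _ k3
      have := (List.Nodup.subperm (l₁ := k.map c) (k3.imp ne_of_lt)
        (l₂ := List.range (Fintype.card (Fin (3 * m + 1) × Fin 3 → ZMod 2))) fun y hy => by
          obtain ⟨x, -, rfl⟩ := List.mem_map.1 hy
          exact List.mem_range.2 (p3 x)).length_le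
      rw [List.length_map, List.length_range] at this
      omega
    · intro k k1 k2
      rw [← pb_DD, pb_apply]
      refine sm _ (by simp [k1]) fun y hy => ?_
      obtain ⟨x, hx, rfl⟩ := List.mem_map.1 hy
      exact ⟨x, k2 x hx, Or.inr rfl⟩

end Pool.Agent.H.MP_d94aa4_gt
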