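import Mathlib
import Pool.Agent.H.MP_d94aa4_gt.D

namespace Pool.Agent.H.MP_d94aa4_gt

open Set Pool.Agent.Lib.helper7.AS Metric Cardinal

theorem exu {L : Type} [Nonempty L] {γ : L → L} (h : ∀ l, γ (γ (γ l)) = l) :
    ∃ u : L → ZMod 3, ∀ l, γ l ≠ l → u l + u (γ l) + u (γ (γ l)) = 1 := by
  classical
  obtain ⟨r, r1, r2⟩ : ∃ r : L → L, (∀ l, r l = l ∨ r l = γ l ∨ r l = γ (γ l)) ∧
      ∀ l, r (γ l) = r l := by
    refine ⟨fun l => Classical.epsilon fun m => m = l ∨ m = γ l ∨ m = γ (γ l), fun l =>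
      Classical.epsilon_spec (p := fun m => m = l ∨ m = γ l ∨ m = γ (γ l)) ⟨l, Or.inl rfl⟩,
      fun l => congrArg _ (funext fun m => ?_)⟩
    rw [h]
    exact propext (by tauto)
  refine ⟨fun l => if r l = l then 1 else 0, fun l hl => ?_⟩
  have a : γ (γ l) ≠ γ l := fun e => hl (by rw [← h l, e, e, e])
  have b : γ (γ l) ≠ l := fun e => hl (by have := h l; rwa [e] at this)
  simp only [r2]
  rcases r1 l with e | e | e <;> simp [e, hl, a, b, hl.symm, a.symm, b.symm]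

theorem arith {u v f : ℕ → ℕ} {r N : ℕ} (rN : r ≤ N)
    (h1 : ∀ q, v q + f q ≤ (if q = r then 1 else 0) + u (q + 1))
    (h2 : ∀ q, u q + f q ≤ (if q = r then 1 else 0) + v (q + 1))
    (hN : ∀ q, N < q → u q = 0 ∧ v q = 0) {k : ℤ}
    (he : ∑ q ∈ Finset.range (N + 1), (-1 : ℤ) ^ q * ((if q = r then 1 else 0 : ℕ) : ℤ) =
      3 * k + ∑ q ∈ Finset.range (N + 1), (-1 : ℤ) ^ q * f q) :
    u (r + 1) = 0 ∧ ∃ s ≤ r, s % 2 = r % 2 ∧ ∀ q, f q = if q = s then 1 else 0 := by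
  have a : ∀ j q, N < q + j → r < q → u q = 0 ∧ v q = 0 := fun j => by
    induction j with
    | zero => exact fun q h _ => hN q h
    | succ j ih =>
      intro q h h'
      have := ih (q + 1) (by omega) (by omega)
      have := h1 q
      have := h2 q
      grind
  have a' : ∀ q, r < q → u q = 0 ∧ v q = 0 := fun q => a (N + 1) q (by omega)
  have b : ∀ j q, q + j = r → u q + f q ≤ 1 ∧ v q + f q ≤ 1 := fun j => by
    induction j with
    | zero =>
      intro q h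
      have := a' (q + 1) (by omega)
      have := h1 q
      have := h2 q
      grind
    | succ j ih =>
      intro q h
      have := ih (q + 1) (by omega)
      have := h1 q
      have := h2 q
      grind
  have f0 : ∀ q, r < q → f q = 0 := fun q h => by
    have := a' (q + 1) (by omega)
    have := h1 q
    grind
  have c : ∀ s, f s ≠ 0 → ∀ j q, q + j + 1 = s → u q + f q = 0 ∧ v q + f q = 0 := fun s hs j => by
    have sr : s ≤ r := not_lt.1 fun h => hs (f0 s h)
    induction j with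
    | zero =>
      intro q h
      have := b (r - s) s (by omega)
      have := h1 q
      have := h2 q
      grind
    | succ j ih =>
      intro q h
      have := ih (q + 1) (by omega)
      have := h1 q
      have := h2 q
      grind
  have S : ∀ s ≤ N, ∑ q ∈ Finset.range (N + 1), (-1 : ℤ) ^ q * ((if q = s then 1 else 0 : ℕ) : ℤ) =
      (-1) ^ s := fun s hs => by simp [Nat.lt_succ_iff, hs]
  rw [S r rN] at he
  refine ⟨(a' _ (Nat.lt_succ_self r)).1, ?_⟩
  by_cases e : ∃ s, f s ≠ 0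
  · obtain ⟨s, hs⟩ := e
    have sr : s ≤ r := not_lt.1 fun h => hs (f0 s h)
    have k : ∀ q, f q = if q = s then 1 else 0 := fun q => by
      rcases lt_trichotomy q s with h | h | h
      · have := c s hs (s - q - 1) q (by omega)
        grind
      · have := b (r - s) s (by omega)
        grind
      · have := fun t => c q t (q - s - 1) s (by omega)
        grind
    refine ⟨s, sr, ?_, k⟩
    simp only [k, S s (sr.trans rN)] at he
    rcases Nat.even_or_odd r with h | h <;> rcases Nat.even_or_odd s with h' | h' <;>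
      rw [h.neg_one_pow, h'.neg_one_pow] at he <;> grind
  · push Not at e
    simp only [e, Nat.cast_zero, mul_zero, Finset.sum_const_zero] at he
    rcases Nat.even_or_odd r with h | h <;> rw [h.neg_one_pow] at he <;> omega

theorem euler' {a b c : ℕ → Cardinal} (h : ∃ α β γ : ℕ → Cardinal, a 0 = α 0 ∧
    (∀ q, a (q + 1) = γ q + α (q + 1)) ∧ (∀ q, b q = α q + β q) ∧ ∀ q, c q = β q + γ q)
    (fb : ∀ q, b q < ℵ₀) (fc : ∀ q, c q < ℵ₀) {M : ℕ} (hM : a (M + 1) = 0) :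
    ∑ q ∈ Finset.range (M + 1), (-1 : ℤ) ^ q * toNat (b q) =
      ∑ q ∈ Finset.range (M + 1), (-1 : ℤ) ^ q * toNat (a q) +
      ∑ q ∈ Finset.range (M + 1), (-1 : ℤ) ^ q * toNat (c q) := by
  obtain ⟨α, β, γ, h0, h1, h2, h3⟩ := h
  have f1 := fun q => add_lt_aleph0_iff.1 (h2 q ▸ fb q)
  have f2 := fun q => add_lt_aleph0_iff.1 (h3 q ▸ fc q)
  exact euler (a := fun q => toNat (a q)) (b := fun q => toNat (b q)) (c := fun q => toNat (c q))
    (α := fun q => toNat (α q)) (β := fun q => toNat (β q)) (γ := fun q => toNat (γ q))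
    (by simp [h0]) (fun q => by rw [h1, toNat_add (f2 _).2 (f1 _).1])
    (fun q => by rw [h2, toNat_add (f1 _).1 (f1 _).2])
    (fun q => by rw [h3, toNat_add (f1 _).2 (f2 _).2]) (by simp [hM])

theorem ineq {a b c : ℕ → Cardinal} (h : ∃ α β γ : ℕ → Cardinal, a 0 = α 0 ∧
    (∀ q, a (q + 1) = γ q + α (q + 1)) ∧ (∀ q, b q = α q + β q) ∧ ∀ q, c q = β q + γ q) (q : ℕ) :
    c q ≤ b q + a (q + 1) := by
  obtain ⟨α, β, γ, h0, h1, h2, h3⟩ := h
  rw [h1, h2, h3]
  exact add_le_add le_add_self le_self_add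

variable {X : Type} (g : X → X)

/-- cochains vanishing on the fixed set -/
def Dm : Submodule (ZMod 3) (List X → ZMod 3) where
  carrier := {a | ∀ l, (∀ x ∈ l, g x = x) → a l = 0}
  add_mem' ha hb l hl := by simp [ha l hl, hb l hl]
  zero_mem' _ _ := rfl
  smul_mem' c a ha l hl := by simp [ha l hl]

/-- the Smith operators -/
def RR (s t : ZMod 3) : (List X → ZMod 3) →ₗ[ZMod 3] (List X → ZMod 3) :=
  LinearMap.id + s • pb g + t • pb g ∘ₗ pb g

theorem RR_apply (s t : ZMod 3) (a : List X → ZMod 3) (l : List X) :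
    RR g s t a l = a l + s * a (l.map g) + t * a ((l.map g).map g) := rfl

/-- the Smith subcomplexes -/
def DK (s t : ZMod 3) := Dm g ⊓ LinearMap.ker (RR g s t)

variable {g}

theorem RR_comm {T : (List X → ZMod 3) →ₗ[ZMod 3] (List X → ZMod 3)}
    (h : ∀ b, pb g (T b) = T (pb g b)) (s t : ZMod 3) (a : List X → ZMod 3) :
    RR g s t (T a) = T (RR g s t a) := by
  simp [RR, h]

theorem fix_map {l : List X} (h : ∀ x ∈ l, g x = x) : l.map g = l := by
  conv_rhs => rw [← List.map_id l]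
  exact List.map_congr_left h

theorem DD_Dm {a : List X → ZMod 3} (h : a ∈ Dm g) : DD a ∈ Dm g := fun _ hl =>
  d_zero _ _ fun m hm _ => h m fun x hx => hl x (hm.subset hx)

theorem DD_DK {s t : ZMod 3} {a : List X → ZMod 3} (h : a ∈ DK g s t) : DD a ∈ DK g s t :=
  ⟨DD_Dm h.1, (RR_comm (pb_DD g) s t a).trans (by rw [show RR g s t a = 0 from h.2, map_zero])⟩

theorem RR_Dm {s t : ZMod 3} (st : 1 + s + t = 0) (a : List X → ZMod 3) : RR g s t a ∈ Dm g :=
  fun l hl => by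
  rw [RR_apply, fix_map hl, fix_map hl]
  linear_combination a l * st

variable (g3 : ∀ x, g (g (g x)) = x)
include g3

theorem map3 (l : List X) : ((l.map g).map g).map g = l := by
  simp only [List.map_map]
  exact fix_map fun x _ => g3 x

theorem nfix {l : List X} (h : ¬ ∀ x ∈ l, g x = x) : l.map g ≠ l := fun e => h fun x hx => by
  have : l.map g = l.map id := by rw [e, List.map_id]
  exact List.map_inj_left.1 this x hx

theorem fix_iff {l : List X} : (∀ x ∈ l.map g, g x = x) ↔ ∀ x ∈ l, g x = x := by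
  rw [List.forall_mem_map]
  refine forall₂_congr fun x _ => ⟨fun h => ?_, fun h => by rw [h, h]⟩
  rw [← g3 x, h, h, h]

theorem ex1 {a : List X → ZMod 3} (h : a ∈ DK g (-1) 0) : ∃ b ∈ Dm g, RR g 1 1 b = a := by
  obtain ⟨u, hu⟩ := exu (map3 g3)
  refine ⟨fun l => u l * a l, fun l hl => by simp [h.1 l hl], funext fun l => ?_⟩
  have k : ∀ l, a (l.map g) = a l := fun l => by
    have := congrFun (show RR g (-1) 0 a = 0 from h.2) l
    rw [RR_apply, Pi.zero_apply] at this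
    linear_combination -this
  rw [RR_apply, k, k, k]
  by_cases e : ∀ x ∈ l, g x = x
  · simp [h.1 l e]
  · linear_combination a l * hu l (nfix g3 e)

theorem ex2 {a : List X → ZMod 3} (h : a ∈ DK g 1 1) : ∃ b ∈ Dm g, RR g (-1) 0 b = a := by
  obtain ⟨u, hu⟩ := exu (map3 g3)
  refine ⟨fun l => -(u ((l.map g).map g) * a ((l.map g).map g)) -
    u (l.map g) * (a (l.map g) + a ((l.map g).map g)), fun l hl => ?_, funext fun l => ?_⟩
  · simp [fix_map hl, h.1 l hl]
  have k := congrFun (show RR g 1 1 a = 0 from h.2) l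
  rw [RR_apply, Pi.zero_apply] at k
  rw [RR_apply]
  simp only [map3 g3]
  by_cases e : ∀ x ∈ l, g x = x
  · simp [fix_map e, h.1 l e]
  · linear_combination a l * hu l (nfix g3 e) - u (l.map g) * k

theorem rr1 (a : List X → ZMod 3) : RR g (-1) 0 (RR g 1 1 a) = 0 := funext fun l => by
  simp only [RR_apply, map3 g3, Pi.zero_apply]; ring

theorem rr2 (a : List X → ZMod 3) : RR g 1 1 (RR g (-1) 0 a) = 0 := funext fun l => by
  simp only [RR_apply, map3 g3, Pi.zero_apply]; ring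

omit g3 in
theorem rr3 (a : List X → ZMod 3) : RR g (-1) 0 (RR g (-1) 0 a) = RR g 1 1 a := funext fun l => by
  simp only [RR_apply]
  have h : (3 : ZMod 3) = 0 := rfl
  linear_combination (-a (l.map g)) * h

theorem lift {s t : ZMod 3} (st : 1 + s + t = 0) {b : List X → ZMod 3} (hb : b ∈ Dm g)
    (f : List X → ZMod 3) : ∃ x, RR g s t x = RR g s t b ∧ ∀ l, (∀ y ∈ l, g y = y) → x l = f l := by
  classical
  refine ⟨b + fun l => if ∀ y ∈ l, g y = y then f l else 0, ?_, fun l hl => by simp [hb l hl, if_pos hl]⟩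
  rw [map_add]
  refine add_eq_left.2 (funext fun l => ?_)
  rw [RR_apply]
  by_cases e : ∀ y ∈ l, g y = y
  · rw [fix_map e, fix_map e, if_pos e, Pi.zero_apply]
    linear_combination f l * st
  · have e1 := mt (fix_iff g3).1 e
    rw [if_neg e, if_neg e1, if_neg (mt (fix_iff g3).1 e1)]
    simp

variable [MetricSpace X] {A : Set X} (hA : IsCompact A) (mg : MapsTo g A A) (hg : ContinuousOn g A)
include hA mg hg

omit g3 in
theorem RR_N (s t : ZMod 3) {q : ℕ} {a : List X → ZMod 3} (h : Z q A a 0) :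
    Z q A (RR g s t a) 0 := by
  have u := hA.uniformContinuousOn_of_continuous hg
  have h1 := h.map u mg
  exact (h.two h1 (c := fun l => a l + s * a (l.map g)) (c' := 0) fun l e1 e2 => by
    simp [e1, e2]).two (h1.map u mg) fun l e1 e2 => by rw [RR_apply, e1, e2]; simp

theorem trunc (s t : ZMod 3) {q : ℕ} {x : List X → ZMod 3} (h1 : Z q A (RR g s t x) 0)
    (h2 : Z q (A ∩ {y | g y = y}) x 0) : ∃ a ∈ DK g s t, Z q A (x - a) 0 := by
  classical
  obtain ⟨e1, p1, h1⟩ := h1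
  obtain ⟨e2, p2, h2⟩ := h2
  have u := hA.uniformContinuousOn_of_continuous hg
  obtain ⟨W, hW⟩ : ∃ W : List X → Prop, ∀ l, W l ↔ Sm (min e1 e2) q A l ∧
    Sm (min e1 e2) q A (l.map g) ∧ Sm (min e1 e2) q A ((l.map g).map g) := ⟨_, fun _ => Iff.rfl⟩
  have Wg : ∀ l, W (l.map g) ↔ W l := fun l => by rw [hW, hW, map3 g3]; tauto
  have z : Z q A (fun l => Sm (min e1 e2) q A l) fun _ => True :=
    ⟨_, lt_min p1 p2, fun l hl => eq_true hl⟩
  refine ⟨fun l => if W l then x l else 0, ⟨fun l hl => ?_, funext fun l => ?_⟩, ?_⟩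
  · beta_reduce
    split_ifs with w
    · have := ((hW l).1 w).1.mono (min_le_right _ _) le_rfl
      exact h2 l ⟨this.1, fun y hy => ⟨this.2.1 y hy, hl y hy⟩, this.2.2⟩
    · rfl
  · rw [RR_apply]
    simp only [Wg]
    split_ifs with w
    · exact h1 l (((hW l).1 w).1.mono (min_le_left _ _) le_rfl)
    · simp
  · obtain ⟨e, he, k⟩ := (z.two (z.map u mg) (c := fun l => Sm (min e1 e2) q A l ∧
      Sm (min e1 e2) q A (l.map g)) (c' := fun _ => True) fun l a b => by simp [a, b]).two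
      ((z.map u mg).map u mg) (c := W) (c' := fun _ => True) fun l a b => by
        rw [hW, ← and_assoc, a, b]; simp
    exact ⟨e, he, fun l hl => by simp [k l hl]⟩

theorem smith1 {s t s' t' : ZMod 3} (st : 1 + s + t = 0) (h1 : ∀ a, RR g s' t' (RR g s t a) = 0)
    (h2 : ∀ a ∈ DK g s' t', ∃ b ∈ Dm g, RR g s t b = a) :
    ∃ α β γ : ℕ → Cardinal, (cx (ZMod 3) A).h (DK g s t) 0 = α 0 ∧
      (∀ q, (cx (ZMod 3) A).h (DK g s t) (q + 1) = γ q + α (q + 1)) ∧
      (∀ q, (cx (ZMod 3) A).h ⊤ q = α q + β q) ∧ ∀ q, (cx (ZMod 3) A).h (DK g s' t') q +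
        (cx (ZMod 3) (A ∩ {y | g y = y})).h ⊤ q = β q + γ q := by
  simp only [← Cx.h_prod]
  refine Cx.les _ _ ((RR g s t).prod LinearMap.id) (fun _ _ => trivial) le_top
    (fun x => Prod.ext (RR_comm (pb_DD g) s t x) rfl)
    (fun q x hx => ⟨RR_N hA mg hg s t hx, Z.mono hx inter_subset_left⟩)
    (fun x _ => ⟨⟨RR_Dm st x, h1 x⟩, trivial⟩) (fun y hy => ?_)
    (fun q x hx => ⟨by simp [show RR g s t x = 0 from hx.2], Z_of fun l hl => hx.1 l fun y hy =>
      (hl y hy).2⟩) fun q x _ hx => trunc g3 hA mg hg s t hx.1 hx.2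
  obtain ⟨b, b1, b2⟩ := h2 _ hy.1
  obtain ⟨x, x1, x2⟩ := lift g3 st b1 y.2
  exact ⟨x, trivial, fun q => ⟨by simp [x1, b2], Z_of fun l hl => by
    simp [x2 l fun y hy => (hl y hy).2]⟩⟩

theorem smith3 : ∃ α β γ : ℕ → Cardinal, (cx (ZMod 3) A).h (DK g (-1) 0) 0 = α 0 ∧
      (∀ q, (cx (ZMod 3) A).h (DK g (-1) 0) (q + 1) = γ q + α (q + 1)) ∧
      (∀ q, (cx (ZMod 3) A).h (DK g 1 1) q = α q + β q) ∧
      ∀ q, (cx (ZMod 3) A).h (DK g (-1) 0) q = β q + γ q := by
  refine Cx.les _ _ (RR g (-1) 0) (fun _ => DD_DK) (fun x hx => ⟨hx.1, ?_⟩)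
    (RR_comm (pb_DD g) _ _) (fun q x hx => RR_N hA mg hg _ _ hx)
    (fun x hx => ⟨RR_Dm rfl x, (rr3 x).trans hx.2⟩) (fun y hy => ?_)
    (fun q x hx => by simp [show RR g (-1) 0 x = 0 from hx.2]) fun q x hx k =>
      trunc g3 hA mg hg _ _ k (Z_of fun l hl => hx.1 l fun y hy => (hl y hy).2)
  · exact (rr3 x).symm.trans (by rw [show RR g (-1) 0 x = 0 from hx.2, map_zero])
  · obtain ⟨b, -, rfl⟩ := ex1 g3 hy
    exact ⟨_, ⟨RR_Dm rfl b, rr2 g3 b⟩, fun q => by simp [rr3]⟩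

theorem step {s t s' t' : ZMod 3} (st : 1 + s + t = 0)
    (h2 : ∀ a ∈ DK g s' t', ∃ b ∈ Dm g, RR g s t b = a) {A' : Set X} (hA' : A' ⊆ A) {q : ℕ}
    (h : (cx (ZMod 3) A).Z (DK g s t) (q + 1) ≤ (cx (ZMod 3) A').B (DK g s t) (q + 1))
    {y f : List X → ZMod 3} (hy : y ∈ (cx (ZMod 3) A).Z (DK g s' t') q)
    (hf : f ∈ (cx (ZMod 3) (A ∩ {y | g y = y})).Z ⊤ q) :
    ∃ c ∈ (cx (ZMod 3) A').Z ⊤ q, RR g s t c = y ∧ ∀ l, (∀ y ∈ l, g y = y) → c l = f l := by
  obtain ⟨b, b1, rfl⟩ := h2 _ hy.1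
  obtain ⟨x, x1, x2⟩ := lift g3 st b1 f
  obtain ⟨e, e1, e2⟩ := trunc g3 hA mg hg s t (q := q + 1) (x := DD x)
    (by rw [RR_comm (pb_DD g), x1]; exact hy.2) (by
      obtain ⟨r, hr, k⟩ := hf.2
      exact ⟨r, hr, fun l hl => (d_congr _ _ _ fun m hm _ => x2 m fun y hy =>
        (hl.2.1 y (hm.subset hy)).2).trans (k l hl)⟩)
  have e3 := (cx (ZMod 3) A).dN _ _ e2
  rw [map_sub, show (cx (ZMod 3) A).d (DD x) = 0 from (cx (ZMod 3) A).dd x, zero_sub,
    neg_mem_iff] at e3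
  obtain ⟨w, w1, w2⟩ := Cx.mem_B.1 (h ⟨e1, e3⟩)
  refine ⟨x - w, ⟨trivial, ?_⟩, by rw [map_sub, x1, show RR g s t w = 0 from w1.2, sub_zero],
    fun l hl => by simp [x2 l hl, w1.1 l hl]⟩
  have := ((cx (ZMod 3) A').N _).add_mem (Z.mono e2 hA') w2
  rw [sub_add_sub_cancel] at this
  show (cx (ZMod 3) A').d (x - w) ∈ (cx (ZMod 3) A').N (q + 1)
  rw [map_sub]
  exact this

end Pool.Agent.H.MP_d94aa4_gt
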