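import Mathlib
import Pool.Agent.H.MP_d94aa4_gt.E

namespace Pool.Agent.H.MP_d94aa4_gt

open Set Pool.Agent.Lib.helper7.AS Metric Cardinal

/-- the complement of a point is acyclic in the limit -/
def Loc {E : Type} [MetricSpace E] (X : Set E) (x : E)
    (M : Submodule (ZMod 3) (List E → ZMod 3)) (q : ℕ) : Prop :=
  ∀ A, IsCompact A → A ⊆ X \ {x} → ∃ A', IsCompact A' ∧ A ⊆ A' ∧ A' ⊆ X \ {x} ∧
    (cx (ZMod 3) A').Z M q ≤ (cx (ZMod 3) A).B M q

/-- cohomology spheres with acyclic point complements -/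
def Good {E : Type} [MetricSpace E] (X : Set E) (r : ℕ) : Prop :=
  IsCompact X ∧ (∀ q, (cx (ZMod 3) X).h ⊤ q = if q = r then 1 else 0) ∧ ∀ x ∈ X, ∀ q, Loc X x ⊤ q

variable {m : ℕ} {g : EuclideanSpace ℝ (Fin m) → EuclideanSpace ℝ (Fin m)}
  (g3 : ∀ x, g (g (g x)) = x)

include g3 in
theorem van {A : Set (EuclideanSpace ℝ (Fin m))} (hA : IsCompact A)
    (mg : MapsTo g A A) (hg : ContinuousOn g A) (s t : ZMod 3) {q : ℕ}
    (hq : Fintype.card (Fin (3 * m + 1) × Fin 3 → ZMod 2) < q) :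
    (cx (ZMod 3) A).Z (DK g s t) q ≤ (cx (ZMod 3) A).B (DK g s t) q := fun a ha => by
  obtain ⟨T, h1, h2, h3⟩ := vanish g3 hA mg hg hq ha.2
  exact memB.2 ⟨T a, ⟨h2 a ha.1.1, (RR_comm h1 s t a).trans
    (by rw [show RR g s t a = 0 from ha.1.2, map_zero])⟩, h3⟩

include g3 in
theorem smith {X : Set (EuclideanSpace ℝ (Fin m))} {r : ℕ} (h : Good X r) (mg : MapsTo g X X)
    (hg : ContinuousOn g X) : ∃ s, Good (X ∩ {y | g y = y}) s ∧ s % 2 = r % 2 ∧
      ((∃ x ∈ X, g x ≠ x) → s < r) := by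
  obtain ⟨hX, hh, hl⟩ := h
  obtain ⟨M, hM⟩ : ∃ M, M = Fintype.card (Fin (3 * m + 1) × Fin 3 → ZMod 2) := ⟨_, rfl⟩
  have fx : ∀ A, IsCompact A → A ⊆ X → IsCompact (A ∩ {y | g y = y}) := fun A hA AX =>
    hA.of_isClosed_subset (hA.isClosed.isClosed_eq (hg.mono AX) continuousOn_id)
      inter_subset_left
  have S1 := smith1 g3 hX mg hg (s := 1) (t := 1) rfl (rr1 g3) fun _ => ex1 g3
  have S2 := smith1 g3 hX mg hg (s := -1) (t := 0) rfl (rr2 g3) fun _ => ex2 g3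
  have S3 := smith3 g3 hX mg hg
  have v0 : ∀ s t q, M < q → (cx (ZMod 3) X).h (DK g s t) q = 0 := fun s t q hq =>
    rd_zero.2 (van g3 hX mg hg s t (hM ▸ hq))
  have fX : ∀ q, (cx (ZMod 3) X).h ⊤ q < ℵ₀ := fun q => by
    rw [hh]; split_ifs
    exacts [one_lt_aleph0, aleph0_pos]
  have fin : ∀ k q, M < q + k → (cx (ZMod 3) X).h (DK g 1 1) q < ℵ₀ ∧
      (cx (ZMod 3) X).h (DK g (-1) 0) q < ℵ₀ := fun k => by
    induction k with
    | zero => exact fun q hq => by rw [v0 _ _ q hq, v0 _ _ q hq]; exact ⟨aleph0_pos, aleph0_pos⟩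
    | succ k ih =>
      intro q hq
      have := ih (q + 1) (by omega)
      exact ⟨le_self_add.trans_lt ((ineq S2 q).trans_lt (add_lt_aleph0 (fX q) this.2)),
        le_self_add.trans_lt ((ineq S1 q).trans_lt (add_lt_aleph0 (fX q) this.1))⟩
  have fu := fun q => (fin (M + 1) q (by omega)).1
  have fv := fun q => (fin (M + 1) q (by omega)).2
  have fc := fun q => (ineq S1 q).trans_lt (add_lt_aleph0 (fX q) (fu _))
  have ff := fun q => (add_lt_aleph0_iff.1 (fc q)).2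
  have tx : ∀ q, toNat ((cx (ZMod 3) X).h ⊤ q) = if q = r then 1 else 0 := fun q => by
    rw [hh]; split_ifs <;> simp
  have e1 := euler' S1 fX fc (v0 _ _ (M + r + 1) (by omega))
  have e3 := euler' S3 fu fv (v0 _ _ (M + r + 1) (by omega))
  simp only [toNat_add (fv _) (ff _), tx, Nat.cast_add, mul_add, Finset.sum_add_distrib] at e1
  obtain ⟨u0, s, sr, s2, hs⟩ := arith (u := fun q => toNat ((cx (ZMod 3) X).h (DK g 1 1) q))
    (v := fun q => toNat ((cx (ZMod 3) X).h (DK g (-1) 0) q))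
    (f := fun q => toNat ((cx (ZMod 3) (X ∩ {y | g y = y})).h ⊤ q)) (Nat.le_add_left r M)
    (fun q => by
      rw [← tx, ← toNat_add (fv _) (ff _), ← toNat_add (fX _) (fu _)]
      exact toNat_le_toNat (ineq S1 q) (add_lt_aleph0 (fX q) (fu _)))
    (fun q => by
      rw [← tx, ← toNat_add (fu _) (ff _), ← toNat_add (fX _) (fv _)]
      exact toNat_le_toNat (ineq S2 q) (add_lt_aleph0 (fX q) (fv _)))
    (fun q hq => by simp [v0 _ _ q (by omega)]) (k := _) (by rw [e1, e3]; ring)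
  have hF : ∀ q, (cx (ZMod 3) (X ∩ {y | g y = y})).h ⊤ q = if q = s then 1 else 0 := fun q => by
    rw [← cast_toNat_of_lt_aleph0 (ff q), hs]; split_ifs <;> simp
  have tr : ∀ {A : Set _} {q c f}, (∀ l, (∀ y ∈ l, g y = y) → c l = f l) → A ⊆ {y | g y = y} →
      c ∈ (cx (ZMod 3) A).B ⊤ q → f ∈ (cx (ZMod 3) A).B ⊤ q := fun e hA hc => by
    obtain ⟨t, -, r, hr, k⟩ := memB.1 hc
    exact memB.2 ⟨t, trivial, r, hr, fun l hl => (e l fun y hy => hA (hl.2.1 y hy)).symm.trans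
      (k l hl)⟩
  refine ⟨s, ⟨fx X hX le_rfl, hF, fun x hx => ?_⟩, s2, fun ⟨x, hx, hn⟩ =>
    lt_of_le_of_ne sr fun e => ?_⟩
  · have inv : ∀ A, IsCompact A → A ⊆ X \ {x} → ∃ A', IsCompact A' ∧ A ⊆ A' ∧ A' ⊆ X \ {x} ∧
        MapsTo g A' A' := fun A hA hs => by
      have k : ∀ B, IsCompact B → B ⊆ X \ {x} → IsCompact (g '' B) ∧ g '' B ⊆ X \ {x} :=
        fun B hB hs => ⟨hB.image_of_continuousOn (hg.mono fun y hy => (hs hy).1), by
          rintro _ ⟨y, hy, rfl⟩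
          refine ⟨mg (hs hy).1, fun e => (hs hy).2 ?_⟩
          rw [← g3 y, show g y = x from e, hx.2, hx.2]; rfl⟩
      obtain ⟨a1, a2⟩ := k A hA hs
      obtain ⟨b1, b2⟩ := k _ a1 a2
      refine ⟨A ∪ g '' A ∪ g '' (g '' A), (hA.union a1).union b1,
        fun y hy => Or.inl (Or.inl hy), union_subset (union_subset hs a2) b2, ?_⟩
      rintro y ((hy | hy) | ⟨_, ⟨z, hz, rfl⟩, rfl⟩)
      · exact Or.inl (Or.inr ⟨y, hy, rfl⟩)
      · exact Or.inr ⟨y, hy, rfl⟩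
      · exact Or.inl (Or.inl ((g3 z).symm ▸ hz))
    have li : ∀ {N q}, Loc X x N q → ∀ A, IsCompact A → A ⊆ X \ {x} → ∃ A', IsCompact A' ∧ A ⊆ A' ∧
        A' ⊆ X \ {x} ∧ MapsTo g A' A' ∧ (cx (ZMod 3) A').Z N _ ≤ (cx (ZMod 3) A).B N _ :=
      fun h A hA hs => by
      obtain ⟨B, b1, b2, b3, b4⟩ := h A hA hs
      obtain ⟨C, c1, c2, c3, c4⟩ := inv B b1 b3
      exact ⟨C, c1, b2.trans c2, c3, c4, (Zmono c2 _ _).trans b4⟩
    have st : ∀ {s t s' t' : ZMod 3} {q}, 1 + s + t = 0 → (∀ a, RR g s' t' (RR g s t a) = 0) →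
        (∀ a ∈ DK g s' t', ∃ b ∈ Dm g, RR g s t b = a) → Loc X x (DK g s t) (q + 1) →
        Loc X x (DK g s' t') q := fun {s t s' t' q} h0 h1 h2 h3 A hA hs => by
      obtain ⟨A0, a1, a2, a3, a4⟩ := inv A hA hs
      obtain ⟨B, b1, b2, b3, b4⟩ := hl x hx.1 q A0 a1 a3
      obtain ⟨C, c1, c2, c3, c4, c5⟩ := li h3 B b1 b3
      refine ⟨C, c1, (a2.trans b2).trans c2, c3, fun y hy => Bmono a2 _ _ ?_⟩
      obtain ⟨c, d1, rfl, -⟩ := step g3 c1 c4 (hg.mono fun y hy => (c3 hy).1) h0 h2 c2 c5 hy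
        (zero_mem _)
      obtain ⟨b, -, k⟩ := Cx.mem_B.1 (b4 d1)
      refine Cx.mem_B.2 ⟨RR g s t b, ⟨RR_Dm h0 b, h1 b⟩, ?_⟩
      have := RR_N a1 a4 (hg.mono fun y hy => (a3 hy).1) s t k
      rwa [map_sub, show RR g s t ((cx (ZMod 3) A0).d b) = _ from RR_comm (pb_DD g) s t b] at this
    have lk : ∀ k q, M < q + k → Loc X x (DK g 1 1) q ∧ Loc X x (DK g (-1) 0) q := fun k => by
      induction k with
      | zero =>
        intro q hq
        have : ∀ s t, Loc X x (DK g s t) q := fun s t A hA hs => by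
          obtain ⟨A0, a1, a2, a3, a4⟩ := inv A hA hs
          exact ⟨A0, a1, a2, a3, (van g3 a1 a4 (hg.mono fun y hy => (a3 hy).1) s t (hM ▸ hq)).trans
            (Bmono a2 _ _)⟩
        exact ⟨this _ _, this _ _⟩
      | succ k ih =>
        intro q hq
        have := ih (q + 1) (by omega)
        exact ⟨st rfl (rr2 g3) (fun _ => ex2 g3) this.2, st rfl (rr1 g3) (fun _ => ex1 g3) this.1⟩
    intro q A hA hs
    obtain ⟨B, b1, b2, b3, b4⟩ := hl x hx.1 q A hA fun y hy => ⟨(hs hy).1.1, (hs hy).2⟩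
    obtain ⟨C, c1, c2, c3, c4, c5⟩ := li (lk (M + 1) (q + 1) (by omega)).1 B b1 b3
    refine ⟨C ∩ {y | g y = y}, fx C c1 fun y hy => (c3 hy).1, fun y hy => ⟨c2 (b2 hy), (hs hy).1.2⟩,
      fun y hy => ⟨⟨(c3 hy.1).1, hy.2⟩, (c3 hy.1).2⟩, fun f hf => ?_⟩
    obtain ⟨c, d1, -, d2⟩ := step g3 c1 c4 (hg.mono fun y hy => (c3 hy).1) rfl (fun _ => ex1 g3) c2
      c5 (zero_mem _) hf
    exact tr d2 (fun y hy => (hs hy).1.2) (b4 d1)
  · obtain ⟨B, -, -, b3, b4⟩ := hl x hx r _ (fx X hX le_rfl) fun y hy =>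
      ⟨hy.1, fun e => hn ((show y = x from e) ▸ hy.2)⟩
    have := hF r
    rw [if_pos e.symm, Cx.h, rd_zero.2] at this
    · exact zero_ne_one this
    · intro f hf
      obtain ⟨c, d1, -, d2⟩ := step g3 hX mg hg rfl (fun _ => ex1 g3) le_rfl (rd_zero.1
        ((toNat_eq_zero.1 u0).resolve_right (fu _).not_ge)) (zero_mem _) hf
      exact tr d2 inter_subset_right (b4 (Zmono (fun y hy => (b3 hy).1) _ _ d1))

theorem chain (G : EuclideanSpace ℝ (Fin m) → EuclideanSpace ℝ (Fin m)) (k : ℕ)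
    {X : Set (EuclideanSpace ℝ (Fin m))} {r : ℕ} (h : Good X r) (mG : MapsTo G X X)
    (hG : ContinuousOn G X) (h1 : ∀ y ∈ X, G^[3 ^ k] y = y)
    (h2 : ∀ i < k, ∃ y ∈ X, G^[3 ^ (i + 1)] y = y ∧ G^[3 ^ i] y ≠ y) :
    ∃ s, Good (X ∩ {y | G y = y}) s ∧ s + 2 * k ≤ r := by
  classical
  induction k generalizing X r with
  | zero => exact ⟨r, by rwa [show X ∩ {y | G y = y} = X from inter_eq_left.2 fun y hy => h1 y hy], le_rfl⟩
  | succ k ih =>
    have mk := mG.iterate (3 ^ k)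
    obtain ⟨g, hg⟩ : ∃ g : _ → _, ∀ y, g y = if y ∈ X then G^[3 ^ k] y else y := ⟨_, fun _ => rfl⟩
    have e : X ∩ {y | g y = y} = X ∩ {y | G^[3 ^ k] y = y} :=
      ext fun y => and_congr_right fun hy => by simp [hg, hy]
    obtain ⟨s, s1, s2, s3⟩ := smith (g := g) (fun y => by
      by_cases hy : y ∈ X
      · rw [hg y, if_pos hy, hg (G^[3 ^ k] y), if_pos (mk hy), hg, if_pos (mk (mk hy)),
          ← Function.iterate_add_apply, ← Function.iterate_add_apply,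
          show 3 ^ k + 3 ^ k + 3 ^ k = 3 ^ (k + 1) by ring, h1 y hy]
      · simp [hg, hy]) h (fun y hy => by simpa [hg, hy] using mk hy)
      ((hG.iterate mG (3 ^ k)).congr fun y hy => by simp [hg, hy])
    rw [e] at s1
    have lt := s3 (by
      obtain ⟨y, hy, -, a⟩ := h2 k k.lt_succ_self
      exact ⟨y, hy, by simpa [hg, hy] using a⟩)
    obtain ⟨t, t1, t2⟩ := ih s1 (fun y hy => ⟨mG hy.1, by
      rw [mem_ofPred_eq, ← Function.iterate_succ_apply, Function.iterate_succ_apply', hy.2]⟩)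
      (hG.mono inter_subset_left) (fun y hy => hy.2) fun i hi => by
        obtain ⟨y, hy, a, b⟩ := h2 i (by omega)
        exact ⟨y, ⟨hy, Function.IsPeriodicPt.trans_dvd a (pow_dvd_pow 3 hi)⟩, a, b⟩
    refine ⟨t, ?_, by omega⟩
    have : {y | G^[3 ^ k] y = y} ∩ {y | G y = y} = {y | G y = y} :=
      inter_eq_right.2 fun y hy => Function.iterate_fixed hy _
    rwa [inter_assoc, this] at t1

theorem low {E : Type} [MetricSpace E] {Y : Set E} {s : ℕ} (h : Good Y s) :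
    (Y.Nonempty → 1 ≤ s) ∧ (Y.Infinite → 2 ≤ s) := by
  have a : Y.Nonempty → 1 ≤ s := fun ⟨y, hy⟩ => Nat.pos_of_ne_zero fun e => by
    have := h.2.1 0
    rw [if_pos e.symm, Cx.h, rd_zero.2] at this
    · exact zero_ne_one this
    · rintro f ⟨-, r, hr, k⟩
      refine Submodule.mem_sup_right ⟨1, one_pos, fun l hl => ?_⟩
      rw [List.length_eq_zero_iff.1 hl.1]
      simpa [cx, dd, d] using k [y] ⟨rfl, by simpa, by simpa⟩
  refine ⟨a, fun hi => lt_of_le_of_ne (a hi.nonempty) fun e => ?_⟩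
  have := h.2.1 1
  rw [if_pos e, Cx.h, rd_zero.2] at this
  · exact zero_ne_one this
  · intro f hf
    obtain ⟨y, hy⟩ := hi.nonempty
    refine memB.2 ⟨fun _ => f [y], trivial, 1, one_pos, fun l hl => ?_⟩
    obtain ⟨z, rfl⟩ := List.length_eq_one_iff.1 hl.1
    have hz : z ∈ Y := hl.2.1 z (by simp)
    obtain ⟨x, x1, x2⟩ := hi.exists_notMem_finite (toFinite {y, z})
    obtain ⟨B, -, -, b3, b4⟩ := h.2.2 x x1 1 {y, z} (toFinite _).isCompact fun w hw =>
      ⟨by rcases hw with rfl | rfl <;> assumption, fun e => x2 ((show w = x from e) ▸ hw)⟩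
    obtain ⟨t, -, r, hr, k⟩ := memB.1 (b4 (Zmono (fun y hy => (b3 hy).1) _ _ hf))
    rw [k [z] ⟨rfl, by simp, by simpa⟩, k [y] ⟨rfl, by simp, by simpa⟩]
    simp [dd, d]

theorem main {n k : ℕ} {S : (Fin n → ℝ) → Fin n → ℝ} (hS : Continuous S)
    (h1 : ∀ y, S^[3 ^ k] y = y) (h2 : ∀ i < k, ∃ y, S^[3 ^ (i + 1)] y = y ∧ S^[3 ^ i] y ≠ y) :
    2 * k ≤ n ∧ ({y | S y = y}.Infinite → 2 * k + 1 ≤ n) := by
  classical
  obtain ⟨j, hj⟩ : ∃ j, 3 ^ k = j + 1 := ⟨3 ^ k - 1, by have := Nat.one_le_pow k 3 three_pos; omega⟩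
  let H : (Fin n → ℝ) ≃ₜ (Fin n → ℝ) :=
    { toFun := S
      invFun := S^[j]
      left_inv := fun y => by rw [← Function.iterate_succ_apply, Nat.succ_eq_add_one, ← hj, h1]
      right_inv := fun y => by rw [← Function.iterate_succ_apply' S, Nat.succ_eq_add_one, ← hj, h1]
      continuous_toFun := hS
      continuous_invFun := hS.iterate j }
  let e := onePointEquivSphereOfFinrankEq (V := Fin n → ℝ) (ι := Fin (n + 1)) (by simp)
  obtain ⟨G, hG⟩ : ∃ G : EuclideanSpace ℝ (Fin (n + 1)) → EuclideanSpace ℝ (Fin (n + 1)),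
      ∀ p, G (e p) = e (H.onePointCongr p) :=
    ⟨fun y => if h : y ∈ sphere 0 1 then e (H.onePointCongr (e.symm ⟨y, h⟩)) else y,
      fun p => by simp [(e p).2]⟩
  have sj : ∀ y ∈ sphere (0 : EuclideanSpace ℝ (Fin (n + 1))) 1, ∃ p, (e p : _) = y :=
    fun y hy => ⟨e.symm ⟨y, hy⟩, by simp⟩
  have inj : Function.Injective fun x : Fin n → ℝ => (e x : EuclideanSpace ℝ (Fin (n + 1))) :=
    Subtype.val_injective.comp (e.injective.comp OnePoint.coe_injective)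
  have i1 : ∀ x : Fin n → ℝ, G (e x) = e (S x) := fun x => hG x
  have i2 : G (e OnePoint.infty) = e OnePoint.infty := hG _
  have i3 : ∀ i (x : Fin n → ℝ), G^[i] (e x) = e (S^[i] x) := fun i x =>
    (Function.Semiconj.iterate_right (f := fun x : Fin n → ℝ =>
      (e x : EuclideanSpace ℝ (Fin (n + 1)))) (fun x => (i1 x).symm) i x).symm
  obtain ⟨s, s1, s2⟩ := chain G k (X := sphere 0 1) (r := n + 1) ⟨isCompact_sphere _ _, sph _,
    fun x hx q A hA hs => (sph_loc hx hA hs).imp fun B b => ⟨b.1, b.2.1, b.2.2.1, b.2.2.2 q⟩⟩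
    (fun y hy => by obtain ⟨p, rfl⟩ := sj y hy; rw [hG]; exact (e _).2)
    (continuousOn_iff_continuous_domRestrict.2 (by
      have : (sphere 0 1).domRestrict G = fun y => (e (H.onePointCongr (e.symm y))).1 :=
        funext fun y => by rw [← hG]; simp
      rw [this]
      fun_prop))
    (fun y hy => by
      obtain ⟨p, rfl⟩ := sj y hy
      induction p using OnePoint.rec with
      | infty => exact Function.iterate_fixed i2 _
      | coe x => rw [i3, h1])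
    fun i hi => by
      obtain ⟨y, a, b⟩ := h2 i hi
      exact ⟨e y, (e _).2, by rw [i3, a], by rw [i3]; exact fun h => b (inj h)⟩
  obtain ⟨a, b⟩ := low s1
  have := a ⟨_, (e _).2, i2⟩
  refine ⟨by omega, fun hi => ?_⟩
  have := b ((hi.image inj.injOn).mono (by
    rintro _ ⟨x, hx, rfl⟩
    exact ⟨(e _).2, (i1 x).trans (by rw [show S x = x from hx])⟩))
  omega

theorem rot (k j : ℕ) : ∃ R : (Fin k → ℂ) × (Fin j → ℝ) → (Fin k → ℂ) × (Fin j → ℝ), Continuous R ∧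
    (∀ y, R^[3 ^ k] y = y) ∧ (∀ i < k, ∃ y, R^[3 ^ (i + 1)] y = y ∧ R^[3 ^ i] y ≠ y) ∧
    ∀ t, R (0, t) = (0, t) := by
  obtain ⟨ζ, hζ⟩ : ∃ ζ : Fin k → ℂ, ∀ i : Fin k, IsPrimitiveRoot (ζ i) (3 ^ ((i : ℕ) + 1)) :=
    ⟨_, fun i : Fin k => Complex.isPrimitiveRoot_exp (3 ^ ((i : ℕ) + 1)) (by positivity)⟩
  obtain ⟨R, hR⟩ : ∃ R : (Fin k → ℂ) × (Fin j → ℝ) → (Fin k → ℂ) × (Fin j → ℝ),
    R = fun y => (fun i => ζ i * y.1 i, y.2) := ⟨_, rfl⟩
  have it : ∀ n y, R^[n] y = (fun i => ζ i ^ n * y.1 i, y.2) := fun n y => by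
    induction n with
    | zero => simp
    | succ n ih => rw [Function.iterate_succ_apply', ih, hR]; simp [pow_succ', mul_assoc]
  refine ⟨R, by rw [hR]; fun_prop, fun y => ?_, fun i hi => ⟨(Pi.single ⟨i, hi⟩ 1, 0), ?_, ?_⟩,
    fun t => by rw [hR]; exact Prod.ext (funext fun i => by simp) rfl⟩
  · rw [it]
    refine Prod.ext (funext fun i => ?_) rfl
    simp [((hζ i).pow_eq_one_iff_dvd _).2 (pow_dvd_pow 3 i.2)]
  · rw [it]
    refine Prod.ext (funext fun l => ?_) rfl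
    by_cases e : l = ⟨i, hi⟩
    · subst e; simpa using (hζ ⟨i, hi⟩).pow_eq_one
    · simp [e]
  · rw [it]
    intro e
    have := congrFun (congrArg Prod.fst e) ⟨i, hi⟩
    simp only [Pi.single_eq_same, mul_one] at this
    have := Nat.le_of_dvd (by positivity) (((hζ ⟨i, hi⟩).pow_eq_one_iff_dvd _).1 this)
    have := (Nat.pow_le_pow_iff_right (by norm_num : 1 < 3)).1 this
    simp at this

theorem final (m : ℕ) : ∃ T : (Fin m → ℝ) → Fin m → ℝ, Continuous T ∧ Function.Injective T ∧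
    ∀ n < m, ∀ U : (Fin m → ℝ) ≃ (Fin n → ℝ), ¬ Continuous (U ∘ T ∘ U.symm) := by
  obtain ⟨R, r1, r2, r3, r4⟩ := rot (m / 2) (m % 2)
  let φ : (Fin m → ℝ) ≃L[ℝ] (Fin (m / 2) → ℂ) × (Fin (m % 2) → ℝ) :=
    ContinuousLinearEquiv.ofFinrankEq (by simp [Module.finrank_pi_fintype]; omega)
  refine ⟨φ.symm ∘ R ∘ φ, by fun_prop, φ.symm.injective.comp (Function.Injective.comp ?_
    φ.injective), fun n hn U hU => ?_⟩
  · obtain ⟨j, hj⟩ : ∃ j, 3 ^ (m / 2) = j + 1 :=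
      ⟨3 ^ (m / 2) - 1, by have := Nat.one_le_pow (m / 2) 3 three_pos; omega⟩
    exact Function.LeftInverse.injective (g := R^[j]) fun y => by
      rw [← Function.iterate_succ_apply, Nat.succ_eq_add_one, ← hj, r2]
  · let W := φ.symm.toEquiv.trans U
    have it : ∀ i y, (U ∘ (φ.symm ∘ R ∘ φ) ∘ U.symm)^[i] (W y) = W (R^[i] y) := fun i y =>
      (Function.Semiconj.iterate_right (f := W) (fun x => by simp [W]) i y).symm
    obtain ⟨a, b⟩ := main hU (k := m / 2) (fun y => by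
      obtain ⟨y, rfl⟩ := W.surjective y
      rw [it, r2]) fun i hi => by
      obtain ⟨y, a, b⟩ := r3 i hi
      exact ⟨W y, by rw [it, a], by rw [it]; exact fun h => b (W.injective h)⟩
    have : m % 2 = 1 := by omega
    have := b (infinite_of_injective_forall_mem (f := fun t : ℝ => W (0, fun _ => t))
      (fun s t h => congrFun (congrArg Prod.snd (W.injective h)) ⟨0, by omega⟩)
      fun t => (it 1 _).trans (congrArg W (r4 _)))
    omega

end Pool.Agent.H.MP_d94aa4_gt
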